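import Mathlib
import Pool.Agent.Lib_helper35.FGRF.Defs

/-!
# The groups `X p`

Definition, finite generation, and failure of residual finiteness.
-/

set_option autoImplicit false

namespace Pool.Agent.FGRF

/-! ### a criterion for not being residually finite -/

theorem not_residuallyFinite {G : Type*} [Group G] (t a b : G)
    (h : ∀ n : ℕ, 1 ≤ n → t ^ n * a * (t ^ n)⁻¹ * b = b * (t ^ n * a * (t ^ n)⁻¹))
    (hab : a * b ≠ b * a) : ¬ Group.ResiduallyFinite G := by
  intro hrf
  apply hab
  have key : a * b * a⁻¹ * b⁻¹ = 1 := by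
    rw [Group.residuallyFinite_iff_forall_finiteIndexNormalSubgroup] at hrf
    apply hrf
    intro H
    have hn : H.toSubgroup.index ≠ 0 := H.isFiniteIndex'.index_ne_zero
    have htn : t ^ H.toSubgroup.index ∈ H.toSubgroup := Subgroup.pow_index_mem _ t
    have h1 := h _ (Nat.one_le_iff_ne_zero.2 hn)
    have hN : H.toSubgroup.Normal := H.isNormal'
    show a * b * a⁻¹ * b⁻¹ ∈ H.toSubgroup
    rw [← QuotientGroup.eq_one_iff] at htn ⊢
    have h2 := congrArg (QuotientGroup.mk (s := H.toSubgroup)) h1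
    simp only [QuotientGroup.mk_mul, QuotientGroup.mk_inv] at h2 ⊢
    rw [htn] at h2
    simp only [one_mul, inv_one, mul_one] at h2
    rw [h2]
    group
  have h3 : a * b = (a * b * a⁻¹ * b⁻¹) * (b * a) := by group
  rw [h3, key, one_mul]

/-! ### the groups `X p` -/

variable {p : ℕ}

namespace X

/-- The generator `t` of the infinite cyclic group. -/
noncomputable def t : X p := ⟨1, 0, 0, 0⟩

/-- The inclusion of `D`. -/
noncomputable def inD (a : ℤ →₀ ZMod p) : X p := ⟨0, a, 0, 0⟩

/-- The inclusion of `B`. -/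
noncomputable def inB (b : ℤ →₀ ZMod p) : X p := ⟨0, 0, b, 0⟩

/-- The inclusion of `C`. -/
noncomputable def inC (c : ZMod p) : X p := ⟨0, 0, 0, c⟩

theorem t_pow (n : ℕ) : (t : X p) ^ n = ⟨n, 0, 0, 0⟩ := by
  induction n with
  | zero => rw [pow_zero]; rfl
  | succ n ih =>
    rw [pow_succ, ih]
    refine X.ext ?_ ?_ ?_ ?_ <;> simp [t]

theorem t_zpow (n : ℤ) : (t : X p) ^ n = ⟨n, 0, 0, 0⟩ := by
  rcases Int.eq_nat_or_neg n with ⟨m, rfl | rfl⟩
  · rw [zpow_natCast, t_pow]
  · rw [zpow_neg, zpow_natCast, t_pow]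
    refine X.ext ?_ ?_ ?_ ?_ <;> simp

theorem conj_inD (n : ℤ) (a : ℤ →₀ ZMod p) :
    (t : X p) ^ n * inD a * ((t : X p) ^ n)⁻¹ = inD (shift n a) := by
  rw [t_zpow]
  refine X.ext ?_ ?_ ?_ ?_ <;> simp [inD]

theorem conj_inB (n : ℤ) (b : ℤ →₀ ZMod p) :
    (t : X p) ^ n * inB b * ((t : X p) ^ n)⁻¹ = inB (shift n b) := by
  rw [t_zpow]
  refine X.ext ?_ ?_ ?_ ?_ <;> simp [inB]

theorem inD_add (a a' : ℤ →₀ ZMod p) : (inD (a + a') : X p) = inD a * inD a' := by
  refine X.ext ?_ ?_ ?_ ?_ <;> simp [inD]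

theorem inB_add (b b' : ℤ →₀ ZMod p) : (inB (b + b') : X p) = inB b * inB b' := by
  refine X.ext ?_ ?_ ?_ ?_ <;> simp [inB]

theorem inD_zero : (inD 0 : X p) = 1 := rfl

theorem inB_zero : (inB 0 : X p) = 1 := rfl

theorem inC_eq (r : ZMod p) : (inC r : X p) = inB (Finsupp.single 0 1) * inD (Finsupp.single 0 r) *
    (inB (Finsupp.single 0 1))⁻¹ * (inD (Finsupp.single 0 r))⁻¹ := by
  refine X.ext ?_ ?_ ?_ ?_
  · simp [inB, inD, inC]
  · simp [inB, inD, inC]
  · simp [inB, inD, inC]
  · simp [inB, inD, inC, pair_single_left, pair_neg_right]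

theorem eq_prod (x : X p) : x = inD x.a * inC x.c * inB x.b * t ^ x.k := by
  rw [t_zpow]
  refine X.ext ?_ ?_ ?_ ?_ <;> simp [inB, inD, inC]

/-- `X p` is generated by three elements. -/
theorem fg [NeZero p] : Group.FG (X p) := by
  rw [Group.fg_iff]
  refine ⟨{t, inD (Finsupp.single 0 1), inB (Finsupp.single 0 1)}, ?_, by simp⟩
  set H := Subgroup.closure ({t, inD (Finsupp.single 0 1), inB (Finsupp.single 0 1)} : Set (X p))
    with hH
  have ht : t ∈ H := Subgroup.subset_closure (by simp)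
  have hd0 : inD (Finsupp.single 0 1) ∈ H := Subgroup.subset_closure (by simp)
  have hb0 : inB (Finsupp.single 0 1) ∈ H := Subgroup.subset_closure (by simp)
  have hd1 : ∀ n : ℕ, inD (Finsupp.single 0 (n : ZMod p)) ∈ H := by
    intro n
    induction n with
    | zero => simp [inD_zero]
    | succ n ih =>
      have : (Finsupp.single (0 : ℤ) ((n + 1 : ℕ) : ZMod p))
          = Finsupp.single 0 (n : ZMod p) + Finsupp.single 0 1 := by
        rw [← Finsupp.single_add]; push_cast; rfl
      rw [this, inD_add]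
      exact H.mul_mem ih hd0
  have hb1 : ∀ n : ℕ, inB (Finsupp.single 0 (n : ZMod p)) ∈ H := by
    intro n
    induction n with
    | zero => simp [inB_zero]
    | succ n ih =>
      have : (Finsupp.single (0 : ℤ) ((n + 1 : ℕ) : ZMod p))
          = Finsupp.single 0 (n : ZMod p) + Finsupp.single 0 1 := by
        rw [← Finsupp.single_add]; push_cast; rfl
      rw [this, inB_add]
      exact H.mul_mem ih hb0
  have hd2 : ∀ r : ZMod p, inD (Finsupp.single 0 r) ∈ H := by
    intro r
    have := hd1 r.val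
    rwa [ZMod.natCast_zmod_val] at this
  have hb2 : ∀ r : ZMod p, inB (Finsupp.single 0 r) ∈ H := by
    intro r
    have := hb1 r.val
    rwa [ZMod.natCast_zmod_val] at this
  have hd3 : ∀ a : ℤ →₀ ZMod p, inD a ∈ H := by
    intro a
    induction a using Finsupp.induction_linear with
    | zero => rw [inD_zero]; exact H.one_mem
    | add a a' ih ih' => rw [inD_add]; exact H.mul_mem ih ih'
    | single i r =>
      have h1 := conj_inD (p := p) i (Finsupp.single 0 r)
      rw [shift_single, zero_add] at h1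
      rw [← h1]
      exact H.mul_mem (H.mul_mem (H.zpow_mem ht i) (hd2 r)) (H.inv_mem (H.zpow_mem ht i))
  have hb3 : ∀ b : ℤ →₀ ZMod p, inB b ∈ H := by
    intro b
    induction b using Finsupp.induction_linear with
    | zero => rw [inB_zero]; exact H.one_mem
    | add a a' ih ih' => rw [inB_add]; exact H.mul_mem ih ih'
    | single i r =>
      have h1 := conj_inB (p := p) i (Finsupp.single 0 r)
      rw [shift_single, zero_add] at h1
      rw [← h1]
      exact H.mul_mem (H.mul_mem (H.zpow_mem ht i) (hb2 r)) (H.inv_mem (H.zpow_mem ht i))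
  rw [eq_top_iff]
  intro x _
  rw [eq_prod x]
  refine H.mul_mem (H.mul_mem (H.mul_mem (hd3 _) ?_) (hb3 _)) (H.zpow_mem ht _)
  rw [inC_eq]
  exact H.mul_mem (H.mul_mem (H.mul_mem (hb3 _) (hd3 _)) (H.inv_mem (hb3 _))) (H.inv_mem (hd3 _))

/-- `X p` is not residually finite, `p ≥ 2`. -/
theorem not_rf (hp : p ≠ 1) : ¬ Group.ResiduallyFinite (X p) := by
  refine not_residuallyFinite (t : X p) (inD (Finsupp.single 0 1)) (inB (Finsupp.single 0 1)) ?_ ?_
  · intro n hn
    have h1 := conj_inD (p := p) n (Finsupp.single 0 1)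
    rw [zpow_natCast] at h1
    rw [h1, shift_single, zero_add]
    refine X.ext ?_ ?_ ?_ ?_
    · simp [inB, inD]
    · simp [inB, inD]
    · simp [inB, inD]
    · simp only [inB, inD, mul_c, shift_zero, pair_zero_left, pair_single_left, one_mul]
      rw [Finsupp.single_apply, if_neg (by omega)]
  · intro h
    have h1 := congrArg X.c h
    simp only [inB, inD, mul_c, shift_zero, pair_zero_left, pair_single_left, one_mul,
      Finsupp.single_eq_same, add_zero, zero_add] at h1
    have : Nontrivial (ZMod p) := ZMod.nontrivial_iff.2 hp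
    exact zero_ne_one h1

end X

end Pool.Agent.FGRF
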