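import Mathlib
import Pool.Agent.Lib_helper35.FGRF.Interface

/-!
Block LI of the interface: ideals of `ℤ[s^±1, u^±1]` closed under `s ↦ s^k, u ↦ u^k`.
-/

set_option autoImplicit false

namespace Pool.Agent.FGRF.LI

open Pool.Agent.FGRF.Interface AddMonoidAlgebra

/-! ### General commutative algebra -/

section General

variable {R : Type*} [CommRing R]

/-- The Lagrange trick. -/
theorem lagrange {ι : Type*} [DecidableEq ι] (W : Ideal R) (I : Finset ι) (c x : ι → R)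
    (h : ∀ k : ℕ, 1 ≤ k → ∑ i ∈ I, c i * x i ^ k ∈ W) {i₀ : ι} (hi₀ : i₀ ∈ I) :
    c i₀ * (x i₀ * ∏ i ∈ I.erase i₀, (x i₀ - x i)) ∈ W := by
  classical
  let g : Polynomial R := Polynomial.X * ∏ i ∈ I.erase i₀, (Polynomial.X - Polynomial.C (x i))
  have hg0 : g.coeff 0 = 0 := by simp [g]
  have hge : ∀ i, g.eval (x i) = x i * ∏ j ∈ I.erase i₀, (x i - x j) := by
    intro i
    simp [g, Polynomial.eval_prod]
  have hsum : ∑ i ∈ I, c i * g.eval (x i) ∈ W := by
    have h1 : ∑ i ∈ I, c i * g.eval (x i)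
        = ∑ k ∈ Finset.range (g.natDegree + 1), g.coeff k * ∑ i ∈ I, c i * x i ^ k := by
      simp only [Polynomial.eval_eq_sum_range, Finset.mul_sum]
      rw [Finset.sum_comm]
      refine Finset.sum_congr rfl fun k _ => Finset.sum_congr rfl fun i _ => ?_
      ring
    rw [h1]
    refine Ideal.sum_mem _ fun k _ => ?_
    rcases Nat.eq_zero_or_pos k with rfl | hk
    · rw [hg0, zero_mul]; exact W.zero_mem
    · exact W.mul_mem_left _ (h k hk)
  have h2 : ∑ i ∈ I, c i * g.eval (x i) = c i₀ * (x i₀ * ∏ i ∈ I.erase i₀, (x i₀ - x i)) := by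
    rw [Finset.sum_eq_single i₀]
    · rw [hge]
    · intro i hi hne
      rw [hge, Finset.prod_eq_zero (i := i) (Finset.mem_erase.2 ⟨hne, hi⟩) (sub_self _)]
      simp
    · intro h'; exact absurd hi₀ h'
  rw [← h2]; exact hsum

theorem chase_aux (S : Submonoid R) (A : Ideal R) (l : List R)
    (h : ∀ x ∈ l, ∃ g ∈ S, g ∈ A ⊔ Ideal.span {x}) : ∃ g ∈ S, g ∈ A ⊔ Ideal.span {l.prod} := by
  induction l with
  | nil => exact ⟨1, S.one_mem, Ideal.mem_sup_right (by simp)⟩
  | cons x l ih =>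
    obtain ⟨g, hg, hgA⟩ := h x (by simp)
    obtain ⟨g', hg', hgA'⟩ := ih fun y hy => h y (by simp [hy])
    refine ⟨g * g', S.mul_mem hg hg', ?_⟩
    obtain ⟨a, ha, b, hb, rfl⟩ := Submodule.mem_sup.1 hgA
    obtain ⟨a', ha', b', hb', rfl⟩ := Submodule.mem_sup.1 hgA'
    obtain ⟨y, rfl⟩ := Ideal.mem_span_singleton'.1 hb
    obtain ⟨y', rfl⟩ := Ideal.mem_span_singleton'.1 hb'
    have h1 : (a + y * x) * (a' + y' * l.prod)
        = (a * (a' + y' * l.prod) + (y * x) * a') + (y * y') * (x * l.prod) := by ring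
    rw [h1, List.prod_cons]
    refine Ideal.add_mem _ (Ideal.mem_sup_left (Ideal.add_mem _ (A.mul_mem_right _ ha)
      (A.mul_mem_left _ ha'))) (Ideal.mem_sup_right (Ideal.mem_span_singleton'.2 ⟨_, rfl⟩))

/-- If `∏ xᵢ ∈ A` and every `A + (xᵢ)` meets the submonoid `S`, then `A` meets `S`. -/
theorem chase (S : Submonoid R) (A : Ideal R) (l : List R) (hl : l.prod ∈ A)
    (h : ∀ x ∈ l, ∃ g ∈ S, g ∈ A ⊔ Ideal.span {x}) : ∃ g ∈ S, g ∈ A := by
  obtain ⟨g, hg, hgA⟩ := chase_aux S A l h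
  refine ⟨g, hg, ?_⟩
  have : A ⊔ Ideal.span {l.prod} = A := by
    rw [sup_eq_left, Ideal.span_singleton_le_iff_mem]; exact hl
  rwa [this] at hgA

/-- The version with an integer factor. -/
theorem chase_int (S : Submonoid R) (A : Ideal R) (c : ℤ) (hc : c ≠ 0) (l : List R)
    (hl : (c : R) * l.prod ∈ A)
    (hq : ∀ q : ℕ, q.Prime → ∃ g ∈ S, g ∈ A ⊔ Ideal.span {(q : R)})
    (h : ∀ x ∈ l, ∃ g ∈ S, g ∈ A ⊔ Ideal.span {x}) : ∃ g ∈ S, g ∈ A := by
  refine chase S A ((c.natAbs.primeFactorsList.map fun q : ℕ => (q : R)) ++ l) ?_ ?_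
  · rw [List.prod_append]
    have h1 : (c.natAbs.primeFactorsList.map fun q : ℕ => (q : R)).prod = ((c.natAbs : ℕ) : R) := by
      rw [← Nat.cast_list_prod, Nat.prod_primeFactorsList (Int.natAbs_ne_zero.2 hc)]
    rw [h1]
    rcases Int.natAbs_eq c with h2 | h2
    · have : ((c.natAbs : ℕ) : R) = (c : R) := by
        conv_rhs => rw [h2]
        simp
      rw [this]; exact hl
    · have : ((c.natAbs : ℕ) : R) = -(c : R) := by
        conv_rhs => rw [h2]
        simp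
      rw [this, neg_mul]; exact A.neg_mem hl
  · intro x hx
    rcases List.mem_append.1 hx with hx | hx
    · obtain ⟨q, hq', rfl⟩ := List.mem_map.1 hx
      exact hq q (Nat.prime_of_mem_primeFactorsList hq')
    · exact h x hx

theorem meets_mono (S : Submonoid R) {A B : Ideal R} (hAB : A ≤ B) (h : ∃ g ∈ S, g ∈ A) :
    ∃ g ∈ S, g ∈ B := by
  obtain ⟨g, hg, hgA⟩ := h
  exact ⟨g, hg, hAB hgA⟩

end General

/-! ### Laurent polynomials in one variable over `𝔽_q` -/

/-- A nonzero Laurent polynomial over `𝔽_q` divides some `s^N - 1`. -/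
theorem exists_dvd_T (q : ℕ) [Fact q.Prime] (f : AddMonoidAlgebra (ZMod q) ℤ) (hf : f ≠ 0) :
    ∃ N : ℕ, 1 ≤ N ∧ f ∣ (AddMonoidAlgebra.single (N : ℤ) (1 : ZMod q) - 1) := by
  obtain ⟨n, P, hP⟩ := LaurentPolynomial.exists_T_pow f
  have hP0 : P ≠ 0 := by
    rintro rfl
    rw [map_zero] at hP
    exact hf ((LaurentPolynomial.isUnit_T (R := ZMod q) (n : ℤ)).mul_left_eq_zero.1 hP.symm)
  have hfin : Finite (AdjoinRoot P) := by
    have : Module.Finite (ZMod q) (AdjoinRoot P) := (AdjoinRoot.powerBasis hP0).finite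
    exact Module.finite_of_finite (ZMod q)
  obtain ⟨i, j, hij, h⟩ := Finite.exists_ne_map_eq_of_infinite
    fun n : ℕ => AdjoinRoot.mk P (Polynomial.X ^ n)
  wlog hlt : i < j generalizing i j
  · exact this j i hij.symm h.symm (by omega)
  have h : AdjoinRoot.mk P (Polynomial.X ^ i) = AdjoinRoot.mk P (Polynomial.X ^ j) := h
  have hdvd := AdjoinRoot.mk_eq_mk.1 h.symm
  refine ⟨j - i, by omega, ?_⟩
  have h2 := map_dvd (Polynomial.toLaurent (R := ZMod q)) hdvd
  rw [hP, map_sub, Polynomial.toLaurent_X_pow, Polynomial.toLaurent_X_pow] at h2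
  have h3 : f ∣ LaurentPolynomial.T (R := ZMod q) (j : ℤ) - LaurentPolynomial.T (i : ℤ) :=
    (Dvd.intro _ rfl).trans h2
  have h4 : LaurentPolynomial.T (R := ZMod q) (j : ℤ) - LaurentPolynomial.T (i : ℤ)
      = LaurentPolynomial.T (i : ℤ) * (LaurentPolynomial.T ((j - i : ℕ) : ℤ) - 1) := by
    rw [mul_sub, ← LaurentPolynomial.T_add, mul_one]
    congr 2
    omega
  rw [h4] at h3
  exact ((LaurentPolynomial.isUnit_T (R := ZMod q) (i : ℤ)).dvd_mul_left).1 h3

/-- Kernel of the reduction modulo `q`. -/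
theorem exists_eq_mul_of_map_eq_zero (q : ℕ) (x : AddMonoidAlgebra ℤ ℤ)
    (h : mapRingHom ℤ (Int.castRingHom (ZMod q)) x = 0) :
    ∃ K : AddMonoidAlgebra ℤ ℤ, x = (q : AddMonoidAlgebra ℤ ℤ) * K := by
  refine ⟨.ofCoeff (x.coeff.mapRange (fun z : ℤ => z / (q : ℤ)) (by simp)), ?_⟩
  rw [← nsmul_eq_mul]
  ext m
  have h1 : ((x.coeff m : ℤ) : ZMod q) = 0 := by
    have := congrArg (fun y => AddMonoidAlgebra.coeff y m) h
    simpa using this
  rw [ZMod.intCast_zmod_eq_zero_iff_dvd] at h1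
  simp only [coeff_smul, Finsupp.smul_apply, Finsupp.mapRange_apply]
  rw [nsmul_eq_mul]
  exact (Int.mul_ediv_cancel' h1).symm

/-! ### The substitutions -/

/-- the substitution `u ↦ s^{-1}` over `ℤ` -/
noncomputable def toS : R2 →+* AddMonoidAlgebra ℤ ℤ :=
  mapDomainRingHom ℤ (AddMonoidHom.fst ℤ ℤ - AddMonoidHom.snd ℤ ℤ)

/-- the substitution `s ↦ s^k` -/
noncomputable def iota (k : ℤ) : AddMonoidAlgebra ℤ ℤ →+* R2 :=
  mapDomainRingHom ℤ ((AddMonoidHom.inl ℤ ℤ).comp (k • AddMonoidHom.id ℤ))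

theorem toS_single (i j c : ℤ) : toS (single (i, j) c) = single (i - j) c := by
  simp [toS]

theorem iota_single (k e c : ℤ) : iota k (single e c) = single (k * e, 0) c := by
  unfold iota
  rw [mapDomainRingHom_apply, mapDomain_single]
  congr 1

theorem phi_single (k i j c : ℤ) : phi k (single (i, j) c) = single (k * i, k * j) c := by
  simp [phi]

theorem ev_eq (p : ℕ) (f : R2) :
    ev p f = mapRingHom ℤ (Int.castRingHom (ZMod p)) (toS f) := by
  induction f using AddMonoidAlgebra.induction_linear with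
  | zero => simp
  | add f g hf hg => rw [map_add, hf, hg, map_add, map_add]
  | single a b =>
    unfold ev toS
    rw [RingHom.comp_apply, mapRingHom_single, mapDomainRingHom_apply, mapDomain_single,
      mapDomainRingHom_apply, mapDomain_single, mapRingHom_single]

theorem dvd_single (a : ℤ × ℤ) (m : ℤ) :
    (single a (1 : ℤ) - 1 : R2) ∣ single (m • a) (1 : ℤ) - 1 := by
  have key : ∀ n : ℕ, (single a (1 : ℤ) - 1 : R2) ∣ single ((n : ℤ) • a) (1 : ℤ) - 1 := by
    intro n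
    have h1 : (single ((n : ℤ) • a) (1 : ℤ) : R2) = single a (1 : ℤ) ^ n := by
      rw [single_pow, one_pow, natCast_zsmul]
    rw [h1]
    exact sub_one_dvd_pow_sub_one _ n
  rcases Int.eq_nat_or_neg m with ⟨n, rfl | rfl⟩
  · exact key n
  · have h2 : (single (-(n : ℤ) • a) (1 : ℤ) - 1 : R2)
        = -single (-(n : ℤ) • a) (1 : ℤ) * (single ((n : ℤ) • a) (1 : ℤ) - 1) := by
      rw [mul_sub, neg_mul, single_mul_single, ← add_smul, neg_add_cancel, zero_smul, one_mul,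
        mul_one, ← one_def]
      ring
    rw [h2]
    exact (key n).mul_left _

theorem phi_sub_iota (b k : ℤ) (h : b ∣ k) (f : R2) :
    (single (b, b) (1 : ℤ) - 1 : R2) ∣ phi k f - iota k (toS f) := by
  induction f using AddMonoidAlgebra.induction_linear with
  | zero => simp
  | add f g hf hg =>
    have : phi k (f + g) - iota k (toS (f + g))
        = (phi k f - iota k (toS f)) + (phi k g - iota k (toS g)) := by
      rw [map_add, map_add, map_add]; ring
    rw [this]; exact dvd_add hf hg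
  | single a c =>
    obtain ⟨i, j⟩ := a
    obtain ⟨m, rfl⟩ := h
    rw [phi_single, toS_single, iota_single]
    have h1 : (single (b * m * i, b * m * j) c - single (b * m * (i - j), 0) c : R2)
        = single (b * m * (i - j), 0) c * (single ((m * j) • ((b, b) : ℤ × ℤ)) (1 : ℤ) - 1) := by
      have h2 : (single (b * m * (i - j), 0) c * single ((m * j) • ((b, b) : ℤ × ℤ)) (1 : ℤ) : R2)
          = single (b * m * i, b * m * j) c := by
        rw [single_mul_single, mul_one]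
        congr 1
        simp only [Prod.smul_mk, smul_eq_mul, Prod.mk_add_mk, Prod.mk.injEq]
        constructor <;> ring
      rw [mul_sub (single (b * m * (i - j), 0) c : R2), h2, mul_one]
    rw [h1]
    exact (dvd_single (b, b) (m * j)).mul_left _

/-! ### The two submonoids -/

/-- products of elements `s^a v^b - 1`, `a ≥ 1`, with `v = s u` -/
def Sgood : Submonoid R2 where
  carrier := {g | ∃ l : List (ℕ × ℤ), (∀ x ∈ l, 1 ≤ x.1) ∧
    (l.map fun x => (AddMonoidAlgebra.single (((x.1 : ℤ) + x.2, x.2) : ℤ × ℤ) (1 : ℤ) - 1 : R2)).prod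
      = g}
  one_mem' := ⟨[], by simp, by simp⟩
  mul_mem' := by
    rintro a b ⟨l, hl, rfl⟩ ⟨l', hl', rfl⟩
    refine ⟨l ++ l', ?_, by rw [List.map_append, List.prod_append]⟩
    intro x hx
    rcases List.mem_append.1 hx with h | h
    · exact hl x h
    · exact hl' x h

/-- divisors of the elements `(s^n - 1)^r`, `n ≥ 1` -/
def Sgood' : Submonoid R2 where
  carrier := {g | ∃ n r : ℕ, 1 ≤ n ∧ g ∣ (single (((n : ℤ), 0) : ℤ × ℤ) (1 : ℤ) - 1 : R2) ^ r}
  one_mem' := ⟨1, 0, le_rfl, one_dvd _⟩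
  mul_mem' := by
    rintro a b ⟨n, r, hn, h⟩ ⟨m, t, hm, h'⟩
    refine ⟨n * m, r + t, Nat.mul_pos hn hm, (mul_dvd_mul h h').trans ?_⟩
    rw [pow_add]
    refine mul_dvd_mul (pow_dvd_pow_of_dvd ?_ r) (pow_dvd_pow_of_dvd ?_ t)
    · have := dvd_single ((n : ℤ), 0) (m : ℤ)
      have h2 : ((m : ℤ) • (((n : ℤ), 0) : ℤ × ℤ)) = (((n * m : ℕ) : ℤ), 0) := by
        simp [mul_comm]
      rwa [h2] at this
    · have := dvd_single ((m : ℤ), 0) (n : ℤ)
      have h2 : ((n : ℤ) • (((m : ℤ), 0) : ℤ × ℤ)) = (((n * m : ℕ) : ℤ), 0) := by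
        simp
      rwa [h2] at this

theorem mem_Sgood (a : ℕ) (b : ℤ) (ha : 1 ≤ a) :
    (single (((a : ℤ) + b, b) : ℤ × ℤ) (1 : ℤ) - 1 : R2) ∈ Sgood :=
  ⟨[(a, b)], by simpa using ha, by simp⟩

theorem mem_Sgood' (n : ℕ) (hn : 1 ≤ n) :
    (single (((n : ℤ), 0) : ℤ × ℤ) (1 : ℤ) - 1 : R2) ∈ Sgood' :=
  ⟨n, 1, hn, by rw [pow_one]⟩

/-- `good'` implies `good`. -/
theorem good_of_good' {A : Ideal R2} (h : ∃ g ∈ Sgood', g ∈ A) : ∃ g ∈ Sgood, g ∈ A := by
  obtain ⟨g, ⟨n, r, hn, hg⟩, hgA⟩ := h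
  refine ⟨(single (((n : ℤ), 0) : ℤ × ℤ) (1 : ℤ) - 1 : R2) ^ r, ?_, A.mem_of_dvd hg hgA⟩
  refine Sgood.pow_mem ?_ r
  simpa using mem_Sgood n 0 hn

/-! ### Differences of monomials -/

/-- If `A + (v^b - 1)` is `good'` for all `b ≥ 1`, then `A + (x_μ - x_ν)` is good for `μ ≠ ν`. -/
theorem good_diff (A : Ideal R2)
    (hv : ∀ b : ℕ, 1 ≤ b →
      ∃ g ∈ Sgood', g ∈ A ⊔ Ideal.span {(single (((b : ℤ), (b : ℤ)) : ℤ × ℤ) (1 : ℤ) - 1 : R2)})
    (μ ν : ℤ × ℤ) (hne : μ ≠ ν) :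
    ∃ g ∈ Sgood, g ∈ A ⊔ Ideal.span {(single μ (1 : ℤ) - single ν (1 : ℤ) : R2)} := by
  have h1 : (single (μ - ν) (1 : ℤ) - 1 : R2) ∈
      Ideal.span {(single μ (1 : ℤ) - single ν (1 : ℤ) : R2)} := by
    refine Ideal.mem_span_singleton'.2 ⟨single (-ν) 1, ?_⟩
    rw [mul_sub, single_mul_single, single_mul_single, neg_add_cancel, one_mul, ← one_def,
      neg_add_eq_sub]
  have h2 : (single (ν - μ) (1 : ℤ) - 1 : R2) ∈
      Ideal.span {(single μ (1 : ℤ) - single ν (1 : ℤ) : R2)} := by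
    refine Ideal.mem_span_singleton'.2 ⟨-single (-μ) 1, ?_⟩
    rw [neg_mul, mul_sub, single_mul_single, single_mul_single, neg_add_cancel, one_mul,
      ← one_def, neg_add_eq_sub]
    ring
  obtain ⟨i, j⟩ := μ
  obtain ⟨i', j'⟩ := ν
  simp only [Prod.mk_sub_mk] at h1 h2
  rcases lt_trichotomy ((i - i') - (j - j')) 0 with h | h | h
  · -- use `h2`
    obtain ⟨a, ha⟩ := Int.eq_ofNat_of_zero_le (show 0 ≤ (i' - i) - (j' - j) by omega)
    refine ⟨_, mem_Sgood a (j' - j) (by omega), Ideal.mem_sup_right ?_⟩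
    rw [← ha]
    have h3 : i' - i - (j' - j) + (j' - j) = i' - i := by ring
    rw [h3]; exact h2
  · -- use `hv`
    apply good_of_good'
    rcases lt_trichotomy (j - j') 0 with h' | h' | h'
    · obtain ⟨b, hb⟩ := Int.eq_ofNat_of_zero_le (show 0 ≤ j' - j by omega)
      refine meets_mono _ ?_ (hv b (by omega))
      refine sup_le_sup_left ?_ A
      rw [Ideal.span_singleton_le_iff_mem, ← hb]
      have h3 : j' - j = i' - i := by omega
      rw [← h3] at h2; exact h2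
    · exfalso; apply hne
      have : i = i' := by omega
      have : j = j' := by omega
      simp_all
    · obtain ⟨b, hb⟩ := Int.eq_ofNat_of_zero_le (show 0 ≤ j - j' by omega)
      refine meets_mono _ ?_ (hv b (by omega))
      refine sup_le_sup_left ?_ A
      rw [Ideal.span_singleton_le_iff_mem, ← hb]
      have h3 : j - j' = i - i' := by omega
      rw [← h3] at h1; exact h1
  · obtain ⟨a, ha⟩ := Int.eq_ofNat_of_zero_le (show 0 ≤ (i - i') - (j - j') by omega)
    refine ⟨_, mem_Sgood a (j - j') (by omega), Ideal.mem_sup_right ?_⟩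
    rw [← ha]
    have h3 : i - i' - (j - j') + (j - j') = i - i' := by ring
    rw [h3]; exact h1

/-! ### The steps of the proof -/

section Steps

variable {W : Ideal R2}

/-- Step (1). -/
theorem step1 (hW : ∀ k : ℕ, 1 ≤ k → ∀ f ∈ W, phi k f ∈ W) (q : ℕ) (hq : q.Prime) (f : R2)
    (hf : f ∈ W) (hfe : ev q f ≠ 0) (b : ℕ) (hb : 1 ≤ b) (A : Ideal R2) (hWA : W ≤ A)
    (hqA : (q : R2) ∈ A) (hvA : (single (((b : ℤ), (b : ℤ)) : ℤ × ℤ) (1 : ℤ) - 1 : R2) ∈ A) :
    ∃ g ∈ Sgood', g ∈ A := by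
  have : Fact q.Prime := ⟨hq⟩
  rw [ev_eq] at hfe
  obtain ⟨N, hN, H, hH⟩ := exists_dvd_T q _ hfe
  obtain ⟨H', rfl⟩ : ∃ H' : AddMonoidAlgebra ℤ ℤ,
      mapRingHom ℤ (Int.castRingHom (ZMod q)) H' = H :=
    map_surjective (Int.castRingHom (ZMod q)).toAddMonoidHom (ZMod.intCast_surjective) H
  have h0 : mapRingHom ℤ (Int.castRingHom (ZMod q)) (toS f * H' - (single (N : ℤ) 1 - 1)) = 0 := by
    rw [map_sub, map_mul, map_sub, mapRingHom_single, map_one, map_one, ← hH, sub_self]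
  obtain ⟨K, hK⟩ := exists_eq_mul_of_map_eq_zero q _ h0
  have h1 := congrArg (iota (b : ℤ)) hK
  rw [map_sub, map_mul, map_mul, map_sub, map_one, map_natCast, iota_single] at h1
  have h2 : iota (b : ℤ) (toS f) ∈ A := by
    have h3 : phi (b : ℤ) f - iota (b : ℤ) (toS f) ∈ A :=
      A.mem_of_dvd (phi_sub_iota (b : ℤ) (b : ℤ) dvd_rfl f) hvA
    have h4 : iota (b : ℤ) (toS f) = phi (b : ℤ) f - (phi (b : ℤ) f - iota (b : ℤ) (toS f)) := by
      ring
    rw [h4]
    exact A.sub_mem (hWA (hW b hb f hf)) h3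
  refine ⟨_, mem_Sgood' (b * N) (Nat.mul_pos hb hN), ?_⟩
  have h5 : (single ((((b * N : ℕ) : ℤ), 0) : ℤ × ℤ) (1 : ℤ) - 1 : R2)
      = iota (b : ℤ) (toS f) * iota (b : ℤ) H' - (q : R2) * iota (b : ℤ) K := by
    rw [← h1]; push_cast; ring
  rw [h5]
  exact A.sub_mem (A.mul_mem_right _ h2) (A.mul_mem_right _ hqA)

theorem eq_sum_single {M : Type*} [AddMonoid M] (f : AddMonoidAlgebra ℤ M) :
    f = ∑ m ∈ f.coeff.support, single m (f.coeff m) := by
  conv_lhs => rw [← sum_coeff_single f]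
  rfl

/-- Step (2). -/
theorem step2 (hW : ∀ k : ℕ, 1 ≤ k → ∀ f ∈ W, phi k f ∈ W)
    (hev : ∀ p : ℕ, p.Prime → ∃ f ∈ W, ev p f ≠ 0) (b : ℕ) (hb : 1 ≤ b) (A : Ideal R2)
    (hWA : W ≤ A) (hvA : (single (((b : ℤ), (b : ℤ)) : ℤ × ℤ) (1 : ℤ) - 1 : R2) ∈ A) :
    ∃ g ∈ Sgood', g ∈ A := by
  classical
  obtain ⟨f, hf, hfe⟩ := hev 2 Nat.prime_two
  have hS : toS f ≠ 0 := by
    intro h0
    apply hfe
    rw [ev_eq, h0, map_zero]
  set F := toS f with hF
  have hsupp : F.coeff.support.Nonempty := by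
    rw [Finset.nonempty_iff_ne_empty, Ne, Finsupp.support_eq_empty, coeff_eq_zero]
    exact hS
  obtain ⟨e₀, he₀⟩ := hsupp
  have hL := lagrange (R := R2) A F.coeff.support (fun e => ((F.coeff e : ℤ) : R2))
    (fun e => single ((b : ℤ) * e, 0) 1) ?_ he₀
  · refine chase_int Sgood' A (F.coeff e₀) (Finsupp.mem_support_iff.1 he₀)
      (single ((b : ℤ) * e₀, 0) 1 :: ((F.coeff.support.erase e₀).toList.map
        fun e => (single ((b : ℤ) * e₀, 0) 1 - single ((b : ℤ) * e, 0) 1 : R2))) ?_ ?_ ?_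
    · rw [List.prod_cons, Finset.prod_map_toList]
      exact hL
    · intro q hq
      obtain ⟨f', hf', hfe'⟩ := hev q hq
      exact step1 hW q hq f' hf' hfe' b hb _ (hWA.trans le_sup_left)
        (Ideal.mem_sup_right (Ideal.mem_span_singleton_self _)) (Ideal.mem_sup_left hvA)
    · intro x hx
      rcases List.mem_cons.1 hx with rfl | hx
      · refine ⟨1, Sgood'.one_mem, Ideal.mem_sup_right (Ideal.mem_span_singleton'.2
          ⟨single (-((b : ℤ) * e₀), 0) 1, ?_⟩)⟩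
        rw [single_mul_single, one_def]
        simp
        rfl
      · obtain ⟨e, he, rfl⟩ := List.mem_map.1 hx
        rw [Finset.mem_toList, Finset.mem_erase] at he
        -- the difference of two powers of `s`
        have h1 : ∀ d : ℤ, (single ((b : ℤ) * d, 0) (1 : ℤ) - 1 : R2) ∈
            Ideal.span {(single ((b : ℤ) * e₀, 0) 1 - single ((b : ℤ) * e, 0) 1 : R2)} →
            ∀ m : ℕ, 1 ≤ m → d = m → ∃ g ∈ Sgood', g ∈ A ⊔
              Ideal.span {(single ((b : ℤ) * e₀, 0) 1 - single ((b : ℤ) * e, 0) 1 : R2)} := by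
          intro d hd m hm hdm
          refine ⟨_, mem_Sgood' (b * m) (Nat.mul_pos hb hm), Ideal.mem_sup_right ?_⟩
          rw [hdm] at hd
          push_cast
          exact hd
        rcases lt_or_gt_of_ne he.1 with h | h
        · obtain ⟨m, hm⟩ := Int.eq_ofNat_of_zero_le (show 0 ≤ e₀ - e by omega)
          refine h1 (e₀ - e) ?_ m (by omega) hm
          refine Ideal.mem_span_singleton'.2 ⟨single (-((b : ℤ) * e), 0) 1, ?_⟩
          rw [mul_sub (single (-((b : ℤ) * e), 0) 1 : R2), single_mul_single, single_mul_single,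
            one_def]
          congr 2
          · simp; ring
          · simp
        · obtain ⟨m, hm⟩ := Int.eq_ofNat_of_zero_le (show 0 ≤ e - e₀ by omega)
          refine h1 (e - e₀) ?_ m (by omega) hm
          refine Ideal.mem_span_singleton'.2 ⟨-single (-((b : ℤ) * e₀), 0) 1, ?_⟩
          rw [neg_mul, mul_sub (single (-((b : ℤ) * e₀), 0) 1 : R2), single_mul_single,
            single_mul_single, one_def, neg_sub]
          congr 2
          · simp; ring
          · simp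
  · intro k hk
    have h2 : phi ((b : ℤ) * k) f - iota ((b : ℤ) * k) F ∈ A :=
      A.mem_of_dvd (phi_sub_iota (b : ℤ) ((b : ℤ) * k) (dvd_mul_right _ _) f) hvA
    have h3 : phi ((b : ℤ) * k) f ∈ A := by
      have := hWA (hW (b * k) (Nat.mul_pos hb hk) f hf)
      push_cast at this
      exact this
    have h4 : iota ((b : ℤ) * k) F ∈ A := by
      have h4 : iota ((b : ℤ) * k) F
          = phi ((b : ℤ) * k) f - (phi ((b : ℤ) * k) f - iota ((b : ℤ) * k) F) := by ring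
      rw [h4]
      exact A.sub_mem h3 h2
    have h5 : iota ((b : ℤ) * k) F
        = ∑ e ∈ F.coeff.support, ((F.coeff e : ℤ) : R2) * (single ((b : ℤ) * e, 0) 1 : R2) ^ k := by
      conv_lhs => rw [eq_sum_single F, map_sum]
      refine Finset.sum_congr rfl fun e _ => ?_
      rw [iota_single, single_pow, one_pow, intCast_def, single_mul_single]
      simp
      ring_nf
    rw [← h5]; exact h4

/-- Step (3): part (b) of the block. -/
theorem step3 (hW : ∀ k : ℕ, 1 ≤ k → ∀ f ∈ W, phi k f ∈ W)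
    (hev : ∀ p : ℕ, p.Prime → ∃ f ∈ W, ev p f ≠ 0) (n r : ℕ) (hn : 1 ≤ n) :
    ∃ g ∈ Sgood', g ∈ W ⊔
      Ideal.span {(single (((n : ℤ), (n : ℤ)) : ℤ × ℤ) (1 : ℤ) - 1 : R2) ^ r} := by
  refine chase Sgood' _
    (List.replicate r (single (((n : ℤ), (n : ℤ)) : ℤ × ℤ) (1 : ℤ) - 1 : R2)) ?_ ?_
  · rw [List.prod_replicate]
    exact Ideal.mem_sup_right (Ideal.mem_span_singleton_self _)
  · intro x hx
    obtain rfl := List.eq_of_mem_replicate hx
    exact step2 hW hev n hn _ (le_sup_left.trans le_sup_left)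
      (Ideal.mem_sup_right (Ideal.mem_span_singleton_self _))

/-- The Lagrange trick for the support of an element of `W`. -/
theorem lagrange_phi (hW : ∀ k : ℕ, 1 ≤ k → ∀ f ∈ W, phi k f ∈ W) (f : R2) (hf : f ∈ W)
    (μ₀ : ℤ × ℤ) (hμ₀ : μ₀ ∈ f.coeff.support) :
    ((f.coeff μ₀ : ℤ) : R2) * (((single μ₀ 1 : R2) :: ((f.coeff.support.erase μ₀).toList.map
      fun μ => (single μ₀ 1 - single μ 1 : R2))).prod) ∈ W := by
  classical
  rw [List.prod_cons, Finset.prod_map_toList]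
  refine lagrange (R := R2) W f.coeff.support (fun μ => ((f.coeff μ : ℤ) : R2))
    (fun μ => single μ 1) ?_ hμ₀
  intro k hk
  have h5 : phi (k : ℤ) f
      = ∑ μ ∈ f.coeff.support, ((f.coeff μ : ℤ) : R2) * (single μ 1 : R2) ^ k := by
    conv_lhs => rw [eq_sum_single f, map_sum]
    refine Finset.sum_congr rfl fun μ _ => ?_
    obtain ⟨i, j⟩ := μ
    rw [phi_single, single_pow, one_pow, intCast_def, single_mul_single]
    simp
  rw [← h5]; exact hW k hk f hf

/-- The factors in the Lagrange trick are good. -/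
theorem good_factors (A : Ideal R2)
    (hv : ∀ b : ℕ, 1 ≤ b →
      ∃ g ∈ Sgood', g ∈ A ⊔ Ideal.span {(single (((b : ℤ), (b : ℤ)) : ℤ × ℤ) (1 : ℤ) - 1 : R2)})
    (f : R2) (μ₀ : ℤ × ℤ) (x : R2)
    (hx : x ∈ ((single μ₀ 1 : R2) :: ((f.coeff.support.erase μ₀).toList.map
      fun μ => (single μ₀ 1 - single μ 1 : R2)))) :
    ∃ g ∈ Sgood, g ∈ A ⊔ Ideal.span {x} := by
  rcases List.mem_cons.1 hx with rfl | hx
  · refine ⟨1, Sgood.one_mem, Ideal.mem_sup_right (Ideal.mem_span_singleton'.2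
      ⟨single (-μ₀) 1, ?_⟩)⟩
    rw [single_mul_single, one_def, neg_add_cancel, one_mul]
  · obtain ⟨μ, hμ, rfl⟩ := List.mem_map.1 hx
    rw [Finset.mem_toList, Finset.mem_erase] at hμ
    exact good_diff A hv μ₀ μ (Ne.symm hμ.1)

/-- Step (4). -/
theorem step4 (hW : ∀ k : ℕ, 1 ≤ k → ∀ f ∈ W, phi k f ∈ W)
    (hev : ∀ p : ℕ, p.Prime → ∃ f ∈ W, ev p f ≠ 0) (q : ℕ) (hq : q.Prime) :
    ∃ g ∈ Sgood, g ∈ W ⊔ Ideal.span {(q : R2)} := by
  obtain ⟨f, hf, hfe⟩ := hev q hq
  -- a coefficient which is not divisible by `q`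
  obtain ⟨μ₀, hμ₀⟩ : ∃ μ₀, ¬ (q : ℤ) ∣ f.coeff μ₀ := by
    by_contra! hcon
    apply hfe
    have h1 : mapRingHom (ℤ × ℤ) (Int.castRingHom (ZMod q)) f = 0 := by
      ext m
      have := (ZMod.intCast_zmod_eq_zero_iff_dvd (f.coeff m) q).2 (hcon m)
      simpa using this
    unfold ev
    rw [RingHom.comp_apply, h1, map_zero]
  have hmem : μ₀ ∈ f.coeff.support := by
    rw [Finsupp.mem_support_iff]
    intro h0; apply hμ₀; rw [h0]; exact dvd_zero _
  set P : R2 := (((single μ₀ 1 : R2) :: ((f.coeff.support.erase μ₀).toList.map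
      fun μ => (single μ₀ 1 - single μ 1 : R2))).prod) with hP
  have hL : ((f.coeff μ₀ : ℤ) : R2) * P ∈ W := lagrange_phi hW f hf μ₀ hmem
  have hcop : IsCoprime (q : ℤ) (f.coeff μ₀) :=
    (Int.isCoprime_iff_gcd_eq_one.2 (by
      have := (Nat.Prime.coprime_iff_not_dvd hq).2 (fun h => hμ₀ (Int.natCast_dvd.2 h))
      simpa [Int.gcd] using this))
  obtain ⟨a, b, hab⟩ := hcop
  refine chase Sgood _ ((single μ₀ 1 : R2) :: ((f.coeff.support.erase μ₀).toList.map
      fun μ => (single μ₀ 1 - single μ 1 : R2))) ?_ ?_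
  · rw [← hP]
    have h1 : P = (b : R2) * (((f.coeff μ₀ : ℤ) : R2) * P) + ((a : R2) * P) * (q : R2) := by
      have h2 : (((a * (q : ℤ) + b * f.coeff μ₀ : ℤ)) : R2) = 1 := by rw [hab]; simp
      push_cast at h2
      calc P = 1 * P := by rw [one_mul]
        _ = _ := by rw [← h2]; ring
    rw [h1]
    exact Ideal.add_mem _ (Ideal.mul_mem_left _ _ (Ideal.mem_sup_left hL))
      (Ideal.mul_mem_left _ _ (Ideal.mem_sup_right (Ideal.mem_span_singleton_self _)))
  · intro x hx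
    refine good_factors _ ?_ f μ₀ x hx
    intro b hb
    exact step1 hW q hq f hf hfe b hb _ (le_sup_left.trans le_sup_left)
      (Ideal.mem_sup_left (Ideal.mem_sup_right (Ideal.mem_span_singleton_self _)))
      (Ideal.mem_sup_right (Ideal.mem_span_singleton_self _))

/-- Step (5). -/
theorem step5 (hW : ∀ k : ℕ, 1 ≤ k → ∀ f ∈ W, phi k f ∈ W)
    (hev : ∀ p : ℕ, p.Prime → ∃ f ∈ W, ev p f ≠ 0) : ∃ g ∈ Sgood, g ∈ W := by
  obtain ⟨f, hf, hfe⟩ := hev 2 Nat.prime_two
  have hf0 : f ≠ 0 := by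
    rintro rfl
    exact hfe (map_zero _)
  have hsupp : f.coeff.support.Nonempty := by
    rw [Finset.nonempty_iff_ne_empty, Ne, Finsupp.support_eq_empty, coeff_eq_zero]
    exact hf0
  obtain ⟨μ₀, hμ₀⟩ := hsupp
  refine chase_int Sgood W (f.coeff μ₀) (Finsupp.mem_support_iff.1 hμ₀) _
    (lagrange_phi hW f hf μ₀ hμ₀) (fun q hq => step4 hW hev q hq) ?_
  intro x hx
  refine good_factors _ ?_ f μ₀ x hx
  intro b hb
  exact step2 hW hev b hb _ le_sup_left (Ideal.mem_sup_right (Ideal.mem_span_singleton_self _))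

end Steps

/-- Block LI, part (a). -/
theorem lia : LIa := by
  intro W hW hev
  obtain ⟨g, ⟨l, hl, rfl⟩, hg⟩ := step5 hW hev
  exact ⟨l, hl, hg⟩

/-- Block LI, part (b). -/
theorem lib : LIb := by
  intro W hW hev n r hn
  obtain ⟨g, ⟨n', r', hn', hg⟩, hgA⟩ := step3 hW hev n r hn
  exact ⟨n', r', hn', Ideal.mem_of_dvd _ hg hgA⟩

end Pool.Agent.FGRF.LI
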