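import Mathlib
import Pool.Agent.Lib_helper46.FGRF.GroupX

/-!
# Restricted wreath products with `ℤ` and the groups `S p q`
-/

set_option autoImplicit false

namespace Pool.Agent.FGRF

open RegularWreathProduct

namespace RWr

variable {A : Type*} [Group A]

/-- The element of the base group which is `a` at the place `i` and `1` elsewhere. -/
def base (i : Multiplicative ℤ) (a : A) : RWr A :=
  ⟨⟨fun z => if z = i then a else 1, 1⟩, by
    refine (Set.finite_singleton i).subset ?_
    intro z hz
    by_contra hne
    exact hz (if_neg hne)⟩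

/-- The generator of the infinite cyclic group. -/
def tt : RWr A := ⟨⟨1, Multiplicative.ofAdd 1⟩, by
  show (Function.mulSupport (1 : Multiplicative ℤ → A)).Finite
  simp⟩

theorem tt_pow (n : ℕ) :
    ((tt : RWr A) ^ n).1 = (⟨1, Multiplicative.ofAdd (n : ℤ)⟩ : A ≀ᵣ (Multiplicative ℤ)) := by
  induction n with
  | zero => rfl
  | succ n ih =>
    rw [pow_succ, Subgroup.coe_mul, ih]
    refine RegularWreathProduct.ext ?_ ?_
    · funext z; simp [tt]
    · rw [RegularWreathProduct.mul_right]
      show Multiplicative.ofAdd (n : ℤ) * Multiplicative.ofAdd 1 = _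
      rw [← ofAdd_add]; push_cast; rfl

theorem tt_zpow (n : ℤ) :
    ((tt : RWr A) ^ n).1 = (⟨1, Multiplicative.ofAdd n⟩ : A ≀ᵣ (Multiplicative ℤ)) := by
  rcases Int.eq_nat_or_neg n with ⟨m, rfl | rfl⟩
  · rw [zpow_natCast, tt_pow]
  · rw [zpow_neg, zpow_natCast, Subgroup.coe_inv, tt_pow]
    refine RegularWreathProduct.ext ?_ ?_
    · funext z; simp
    · rfl

theorem conj_base (n : ℤ) (a : A) :
    (tt : RWr A) ^ n * base 1 a * ((tt : RWr A) ^ n)⁻¹ = base (Multiplicative.ofAdd n) a := by
  apply Subtype.ext
  rw [Subgroup.coe_mul, Subgroup.coe_mul, Subgroup.coe_inv, tt_zpow]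
  refine RegularWreathProduct.ext ?_ ?_
  · funext z
    simp only [base, mul_left, inv_left, one_mul, Pi.mul_apply, Pi.one_apply, Pi.inv_apply,
      inv_one, mul_one, inv_mul_eq_one]
    by_cases hz : Multiplicative.ofAdd n = z
    · rw [if_pos hz, if_pos hz.symm]
    · rw [if_neg hz, if_neg (fun h => hz h.symm)]
  · simp [base]

theorem base_mul (i : Multiplicative ℤ) (a b : A) : base i (a * b) = base i a * base i b := by
  apply Subtype.ext
  rw [Subgroup.coe_mul]
  refine RegularWreathProduct.ext ?_ ?_
  · funext z
    simp only [base, mul_left, inv_one, one_mul, Pi.mul_apply]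
    by_cases hz : z = i <;> simp [hz]
  · simp [base]

/-- The base group is generated by the elements `base i a`. -/
theorem left_mem (H : Subgroup (RWr A)) (hH : ∀ i a, base i a ∈ H) (s : Finset (Multiplicative ℤ)) :
    ∀ f : Multiplicative ℤ → A, ∀ hf : Function.mulSupport f ⊆ s,
      (⟨⟨f, 1⟩, s.finite_toSet.subset hf⟩ : RWr A) ∈ H := by
  classical
  induction s using Finset.induction_on with
  | empty =>
    intro f hf
    have h0 : f = 1 := by
      funext z
      by_contra hz
      simpa using hf hz
    subst h0
    exact H.one_mem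
  | insert i s hi ih =>
    intro f hf
    let g : Multiplicative ℤ → A := fun z => if z = i then 1 else f z
    have hg : Function.mulSupport g ⊆ s := by
      intro z hz
      by_cases hzi : z = i
      · subst hzi
        exact absurd (by simp [g]) hz
      · have h1 : z ∈ Function.mulSupport f := by
          intro h
          apply hz
          simp only [g, if_neg hzi, h]
        have := hf h1
        rcases Finset.mem_insert.1 (Finset.mem_coe.1 this) with h | h
        · exact absurd h hzi
        · exact h
    have h2 := H.mul_mem (ih g hg) (hH i (f i))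
    convert h2 using 1
    apply Subtype.ext
    rw [Subgroup.coe_mul]
    refine RegularWreathProduct.ext ?_ ?_
    · funext z
      simp only [base, mul_left, inv_one, one_mul, Pi.mul_apply, g]
      by_cases hz : z = i <;> simp [hz]
    · simp [base]

/-- `A ≀ ℤ` is finitely generated if `A` is finite. -/
theorem fg [Finite A] : Group.FG (RWr A) := by
  rw [Group.fg_iff]
  refine ⟨insert tt (Set.range (base 1)), ?_, (Set.finite_range _).insert _⟩
  set H := Subgroup.closure (insert tt (Set.range (base (A := A) 1))) with hH
  have ht : tt ∈ H := Subgroup.subset_closure (Set.mem_insert _ _)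
  have hb : ∀ a : A, base 1 a ∈ H := fun a =>
    Subgroup.subset_closure (Set.mem_insert_of_mem _ ⟨a, rfl⟩)
  have hb2 : ∀ (i : Multiplicative ℤ) (a : A), base i a ∈ H := by
    intro i a
    have h1 := conj_base i.toAdd a
    rw [ofAdd_toAdd] at h1
    rw [← h1]
    exact H.mul_mem (H.mul_mem (H.zpow_mem ht _) (hb a)) (H.inv_mem (H.zpow_mem ht _))
  rw [eq_top_iff]
  rintro ⟨x, hx⟩ -
  have hx' : (Function.mulSupport x.left).Finite := hx
  have h1 := left_mem H hb2 hx'.toFinset x.left (by intro z hz; simpa using hz)
  have h2 := H.mul_mem h1 (H.zpow_mem ht (x.right.toAdd))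
  convert h2 using 1
  apply Subtype.ext
  rw [Subgroup.coe_mul, tt_zpow]
  refine RegularWreathProduct.ext ?_ ?_
  · funext z; simp
  · simp

/-- `A ≀ ℤ` is not residually finite if `A` is not abelian. -/
theorem not_rf (a b : A) (hab : a * b ≠ b * a) : ¬ Group.ResiduallyFinite (RWr A) := by
  refine not_residuallyFinite tt (base 1 a) (base 1 b) ?_ ?_
  · intro n hn
    have h1 := conj_base (n : ℤ) a
    rw [zpow_natCast] at h1
    rw [h1]
    apply Subtype.ext
    rw [Subgroup.coe_mul, Subgroup.coe_mul]
    refine RegularWreathProduct.ext ?_ ?_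
    · funext z
      simp only [base, mul_left, inv_one, one_mul, Pi.mul_apply]
      by_cases hz : z = 1
      · subst hz
        rw [if_neg, one_mul, mul_one]
        intro h
        have h2 := congrArg Multiplicative.toAdd h
        simp only [toAdd_one, toAdd_ofAdd] at h2
        omega
      · rw [if_neg hz, one_mul, mul_one]
    · simp [base]
  · intro h
    rw [← base_mul, ← base_mul] at h
    have h1 := congrArg (fun x : RWr A => x.1.left 1) h
    simp only [base, if_pos] at h1
    exact hab h1

end RWr

/-! ### the groups `S p q` -/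

namespace S

theorem fg (p q : ℕ) [NeZero p] [NeZero q] : Group.FG (S p q) := by
  have : Finite (Multiplicative (ZMod p)) := inferInstanceAs (Finite (ZMod p))
  have : Finite (Multiplicative (ZMod q)) := inferInstanceAs (Finite (ZMod q))
  exact RWr.fg

theorem not_rf (p q : ℕ) (hp : p ≠ 1) (hq : q ≠ 1) : ¬ Group.ResiduallyFinite (S p q) := by
  have h1 : Nontrivial (ZMod p) := ZMod.nontrivial_iff.2 hp
  have h2 : Nontrivial (ZMod q) := ZMod.nontrivial_iff.2 hq
  refine RWr.not_rf (⟨fun z => if z = 1 then Multiplicative.ofAdd 1 else 1, 1⟩)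
    (⟨1, Multiplicative.ofAdd 1⟩) ?_
  intro h
  have h3 := congrArg (fun x => x.left 1) h
  simp only [mul_left, one_mul, Pi.mul_apply, Pi.one_apply, mul_one, if_true] at h3
  rw [if_neg] at h3
  · have h4 := congrArg Multiplicative.toAdd h3
    simp only [toAdd_ofAdd, toAdd_one] at h4
    exact one_ne_zero h4
  · intro h5
    have h6 := congrArg Multiplicative.toAdd h5
    simp only [toAdd_inv, toAdd_ofAdd, toAdd_one, neg_eq_zero] at h6
    exact one_ne_zero h6

end S

end Pool.Agent.FGRF
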