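import Mathlib
import Pool.Agent.Lib_helper35.FGRF.Sat
import Pool.Agent.Lib_helper35.FGRF.Diff
import Pool.Agent.Lib_helper46.FGRF.GroupX
import Pool.Agent.Lib_helper46.FGRF.GroupS

/-!
# Laws of `UG p q`, of `X p` and of `S p q`
-/

set_option autoImplicit false

namespace Pool.Agent.FGRF

open LaurentPolynomial

variable {L : Set (FreeGroup ℕ)}

/-! ### the general lemma -/

section SatModule

variable {k : Type*} [CommRing k] {Γ : Type*} [Group Γ] {M : Type*} [AddCommGroup M] [Module k M]
  [DistribMulAction Γ M] [SMulCommClass Γ k M]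

/-- the module structure over the group ring -/
noncomputable def lin (k : Type*) [CommRing k] (Γ : Type*) [Group Γ] (M : Type*) [AddCommGroup M]
    [Module k M] [DistribMulAction Γ M] [SMulCommClass Γ k M] :
    MonoidAlgebra k Γ →ₐ[k] Module.End k M :=
  MonoidAlgebra.lift k (Module.End k M) Γ (DistribMulAction.toModuleEnd k M)

theorem lin_smul (g : Γ) (x : MonoidAlgebra k Γ) (m : M) :
    lin k Γ M (g • x) m = g • lin k Γ M x m := by
  rw [actMA_def, map_mul, Module.End.mul_apply]
  unfold lin
  rw [MonoidAlgebra.lift_single, one_smul]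
  rfl

/-- the additive map `ℕ →₀ k[Γ] → M` with `e_i ↦ m_i` -/
noncomputable def evm (m : ℕ → M) : (ℕ →₀ MonoidAlgebra k Γ) →+ M :=
  Finsupp.liftAddHom fun i =>
    { toFun := fun x => lin k Γ M x (m i)
      map_zero' := by simp
      map_add' := by intro x y; simp }

theorem evm_single (m : ℕ → M) (i : ℕ) (x : MonoidAlgebra k Γ) :
    evm m (Finsupp.single i x) = lin k Γ M x (m i) := by
  unfold evm
  rw [Finsupp.liftAddHom_apply_single]
  rfl

theorem evm_smul (m : ℕ → M) (g : Γ) (n : ℕ →₀ MonoidAlgebra k Γ) :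
    evm m (g • n) = g • evm m n := by
  induction n using Finsupp.induction_linear with
  | zero => simp
  | add a b ha hb => rw [smul_add, map_add, map_add, ha, hb, smul_add]
  | single i x => rw [Finsupp.smul_single, evm_single, evm_single, lin_smul]

/-- The free module of countable rank. -/
theorem sat_free (h : Sat L (SD (MonoidAlgebra k Γ) Γ)) :
    Sat L (SD (ℕ →₀ MonoidAlgebra k Γ) Γ) := by
  refine Sat.of_injective (H := ℕ → SD (MonoidAlgebra k Γ) Γ)
    { toFun := fun x i => ⟨x.m i, x.g⟩
      map_one' := by funext i; rfl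
      map_mul' := by intro x y; funext i; rfl } ?_ (Sat.pi fun _ => h)
  intro x y hxy
  have h1 : ∀ i, (⟨x.m i, x.g⟩ : SD (MonoidAlgebra k Γ) Γ) = ⟨y.m i, y.g⟩ := fun i => congrFun hxy i
  refine SD.ext ?_ ?_
  · ext1 i
    exact congrArg SD.m (h1 i)
  · have h2 := congrArg SD.g (h1 0)
    exact h2

/-- The laws of `k ≀ Γ` hold in all split extensions of `k`-linear `Γ`-modules by `Γ`. -/
theorem sat_module (h : Sat L (SD (MonoidAlgebra k Γ) Γ)) : Sat L (SD M Γ) := by
  intro w hw f
  let φ : SD (ℕ →₀ MonoidAlgebra k Γ) Γ →* SD M Γ :=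
    SD.map (evm (k := k) (Γ := Γ) fun n => (f n).m) (MonoidHom.id Γ)
      (fun g n => by rw [evm_smul]; rfl)
  have h1 : f = fun n => φ (⟨Finsupp.single n 1, (f n).g⟩) := by
    funext n
    refine SD.ext ?_ ?_
    · show (f n).m = evm (k := k) (Γ := Γ) (fun n => (f n).m) (Finsupp.single n 1)
      rw [evm_single, map_one, Module.End.one_apply]
    · rfl
  rw [h1, lift_comp, sat_free h w hw, map_one]

end SatModule

/-! ### `X p` -/

section SatX

variable {p : ℕ}

/-- the pairing of a Laurent polynomial with a sequence -/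
noncomputable def pairL (v : Lam p) (a : ℤ → ZMod p) : ZMod p := v.coeff.sum fun i r => r * a i

theorem pairL_add_left (v w : Lam p) (a : ℤ → ZMod p) :
    pairL (v + w) a = pairL v a + pairL w a := by
  unfold pairL
  rw [AddMonoidAlgebra.coeff_add]
  exact Finsupp.sum_add_index' (by simp) (by intro i r s; ring)

theorem pairL_zero_left (a : ℤ → ZMod p) : pairL (0 : Lam p) a = 0 := by
  simp [pairL]

theorem pairL_add_right (v : Lam p) (a b : ℤ → ZMod p) :
    pairL v (a + b) = pairL v a + pairL v b := by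
  unfold pairL
  rw [← Finsupp.sum_add]
  refine Finsupp.sum_congr fun i _ => ?_
  rw [Pi.add_apply, mul_add]

theorem pairL_smul_right (v : Lam p) (r : ZMod p) (a : ℤ → ZMod p) :
    pairL v (r • a) = r * pairL v a := by
  unfold pairL
  rw [Finsupp.mul_sum]
  refine Finsupp.sum_congr fun i _ => ?_
  rw [Pi.smul_apply, smul_eq_mul]
  ring

theorem pairL_single (i : ℤ) (r : ZMod p) (a : ℤ → ZMod p) :
    pairL (AddMonoidAlgebra.single i r) a = r * a i := by
  unfold pairL
  rw [AddMonoidAlgebra.coeff_single, Finsupp.sum_single_index (by simp)]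

theorem pairL_T (k : ℤ) (v : Lam p) (a : ℤ → ZMod p) :
    pairL (T k * v) (fun i => a (i - k)) = pairL v a := by
  induction v using AddMonoidAlgebra.induction_linear with
  | zero => rw [mul_zero, pairL_zero_left, pairL_zero_left]
  | add v w hv hw => rw [mul_add, pairL_add_left, pairL_add_left, hv, hw]
  | single i r =>
    show pairL (AddMonoidAlgebra.single k 1 * AddMonoidAlgebra.single i r) _ = _
    rw [AddMonoidAlgebra.single_mul_single, one_mul, pairL_single, pairL_single]
    congr 2
    ring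

variable (p) in
/-- the module underlying `X p` -/
def MX : Type := (ℤ → ZMod p) × ZMod p

instance : AddCommGroup (MX p) := inferInstanceAs (AddCommGroup ((ℤ → ZMod p) × ZMod p))
instance : Module (ZMod p) (MX p) := inferInstanceAs (Module (ZMod p) ((ℤ → ZMod p) × ZMod p))

noncomputable instance : DistribMulAction (Lamp p) (MX p) where
  smul g x := (fun i => x.1 (i - g.g.toAdd), x.2 + pairL g.m (fun i => x.1 (i - g.g.toAdd)))
  one_smul x := by
    refine Prod.ext ?_ ?_
    · show (fun i => x.1 (i - (0 : ℤ))) = x.1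
      simp
    · show x.2 + pairL (0 : Lam p) _ = x.2
      rw [pairL_zero_left, add_zero]
  mul_smul g h x := by
    refine Prod.ext ?_ ?_
    · show (fun i => x.1 (i - (g.g.toAdd + h.g.toAdd))) = fun i => x.1 (i - g.g.toAdd - h.g.toAdd)
      funext i
      rw [sub_sub]
    · show x.2 + pairL (g.m + T g.g.toAdd * h.m) (fun i => x.1 (i - (g.g.toAdd + h.g.toAdd))) =
        (x.2 + pairL h.m (fun i => x.1 (i - h.g.toAdd))) +
          pairL g.m (fun i => x.1 (i - g.g.toAdd - h.g.toAdd))
      rw [pairL_add_left]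
      have h1 : (fun i => x.1 (i - (g.g.toAdd + h.g.toAdd)))
          = fun i => (fun j => x.1 (j - h.g.toAdd)) (i - g.g.toAdd) := by
        funext i
        rw [← sub_sub]
      have h2 : pairL (T g.g.toAdd * h.m) (fun i => x.1 (i - (g.g.toAdd + h.g.toAdd)))
          = pairL h.m (fun i => x.1 (i - h.g.toAdd)) := by
        rw [h1]
        exact pairL_T g.g.toAdd h.m (fun j => x.1 (j - h.g.toAdd))
      rw [h2]
      have h3 : (fun i => x.1 (i - (g.g.toAdd + h.g.toAdd)))
          = fun i => x.1 (i - g.g.toAdd - h.g.toAdd) := by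
        funext i
        rw [sub_sub]
      rw [h3]
      ring
  smul_zero g := by
    refine Prod.ext ?_ ?_
    · rfl
    · show (0 : ZMod p) + pairL g.m (0 : ℤ → ZMod p) = 0
      rw [zero_add]
      simp [pairL]
  smul_add g x y := by
    refine Prod.ext ?_ ?_
    · rfl
    · show (x.2 + y.2) + pairL g.m ((fun i => x.1 (i - g.g.toAdd)) + fun i => y.1 (i - g.g.toAdd)) =
        (x.2 + pairL g.m _) + (y.2 + pairL g.m _)
      rw [pairL_add_right]
      ring

theorem smul_MX_fst (g : Lamp p) (x : MX p) : (g • x).1 = fun i => x.1 (i - g.g.toAdd) := rfl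

theorem smul_MX_snd (g : Lamp p) (x : MX p) :
    (g • x).2 = x.2 + pairL g.m (fun i => x.1 (i - g.g.toAdd)) := rfl

instance : SMulCommClass (Lamp p) (ZMod p) (MX p) where
  smul_comm g r x := by
    refine Prod.ext ?_ ?_
    · rfl
    · show r • x.2 + pairL g.m (r • fun i => x.1 (i - g.g.toAdd)) =
        r • (x.2 + pairL g.m fun i => x.1 (i - g.g.toAdd))
      rw [pairL_smul_right, smul_add]
      rfl

theorem ofCoeff_shift (k : ℤ) (b : ℤ →₀ ZMod p) :
    (AddMonoidAlgebra.ofCoeff (shift k b) : Lam p) = T k * AddMonoidAlgebra.ofCoeff b := by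
  induction b using Finsupp.induction_linear with
  | zero => simp
  | add b b' h h' =>
    rw [shift_add, AddMonoidAlgebra.ofCoeff_add, AddMonoidAlgebra.ofCoeff_add, h, h', mul_add]
  | single i r =>
    rw [shift_single]
    show (AddMonoidAlgebra.single (i + k) r : Lam p) =
      AddMonoidAlgebra.single k 1 * AddMonoidAlgebra.single i r
    rw [AddMonoidAlgebra.single_mul_single, one_mul, add_comm]

/-- `X p` embeds in a split extension of a `ZMod p`-module by the lamplighter group. -/
noncomputable def XtoSD : X p →* SD (MX p) (Lamp p) where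
  toFun x := ⟨(⇑x.a, x.c), ⟨AddMonoidAlgebra.ofCoeff x.b, Multiplicative.ofAdd x.k⟩⟩
  map_one' := rfl
  map_mul' x y := by
    refine SD.ext ?_ ?_
    · refine Prod.ext ?_ ?_
      · funext i
        show (x.a + shift x.k y.a) i = x.a i + y.a (i - x.k)
        rw [Finsupp.add_apply, shift_apply]
      · show x.c + y.c + pair x.b (shift x.k y.a) =
          x.c + (y.c + pairL (AddMonoidAlgebra.ofCoeff x.b) (fun i => y.a (i - x.k)))
        have h1 : pair x.b (shift x.k y.a)
            = pairL (AddMonoidAlgebra.ofCoeff x.b) (fun i => y.a (i - x.k)) := by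
          unfold pair pairL
          refine Finsupp.sum_congr fun i _ => ?_
          rw [shift_apply]
        rw [h1, add_assoc]
    · refine SD.ext ?_ ?_
      · show (AddMonoidAlgebra.ofCoeff (x.b + shift x.k y.b) : Lam p) =
          AddMonoidAlgebra.ofCoeff x.b + T x.k * AddMonoidAlgebra.ofCoeff y.b
        rw [AddMonoidAlgebra.ofCoeff_add, ofCoeff_shift]
      · rfl

theorem XtoSD_injective : Function.Injective (XtoSD (p := p)) := by
  intro x y h
  have h1 : (⇑x.a, x.c) = (⇑y.a, y.c) := congrArg SD.m h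
  have h2 := congrArg SD.g h
  have h3 : (AddMonoidAlgebra.ofCoeff x.b : Lam p) = AddMonoidAlgebra.ofCoeff y.b :=
    congrArg SD.m h2
  have h4 : Multiplicative.ofAdd x.k = Multiplicative.ofAdd y.k := congrArg SD.g h2
  refine X.ext ?_ ?_ ?_ ?_
  · exact h4
  · exact DFunLike.coe_injective (congrArg Prod.fst h1)
  · exact AddMonoidAlgebra.ofCoeff_inj.1 h3
  · exact congrArg Prod.snd h1

/-- The laws of `(ℤ/p) ≀ ((ℤ/p) ≀ ℤ)` hold in `X p`. -/
theorem sat_X (h : Sat L (UG p p)) : Sat L (X p) :=
  (sat_module (k := ZMod p) (M := MX p) h).of_injective XtoSD XtoSD_injective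

end SatX

/-! ### `S p q` -/

section SatS

variable {p q : ℕ}

variable (p q) in
/-- the module underlying `S p q` -/
def MS : Type := ℤ × ZMod p → ZMod q

instance : AddCommGroup (MS p q) := inferInstanceAs (AddCommGroup (ℤ × ZMod p → ZMod q))
instance : Module (ZMod q) (MS p q) := inferInstanceAs (Module (ZMod q) (ℤ × ZMod p → ZMod q))

theorem coeff_T_mul (k : ℤ) (v : Lam p) (i : ℤ) : (T k * v : Lam p).coeff i = v.coeff (i - k) := by
  have h := AddMonoidAlgebra.coeff_single_mul_apply v (1 : ZMod p) k i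
  rw [one_mul, neg_add_eq_sub] at h
  exact h

noncomputable instance : DistribMulAction (Lamp p) (MS p q) where
  smul g m := fun x => m (x.1 - g.g.toAdd, x.2 - g.m.coeff x.1)
  one_smul m := by
    funext x
    show m (x.1 - (0 : ℤ), x.2 - (0 : Lam p).coeff x.1) = m x
    simp
  mul_smul g h m := by
    funext x
    show m (x.1 - (g.g.toAdd + h.g.toAdd), x.2 - (g.m + T g.g.toAdd * h.m : Lam p).coeff x.1) =
      m (x.1 - g.g.toAdd - h.g.toAdd, x.2 - g.m.coeff x.1 - h.m.coeff (x.1 - g.g.toAdd))
    rw [AddMonoidAlgebra.coeff_add, Finsupp.add_apply, coeff_T_mul, sub_sub, sub_sub]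
  smul_zero g := rfl
  smul_add g m m' := rfl

instance : SMulCommClass (Lamp p) (ZMod q) (MS p q) where
  smul_comm _ _ _ := rfl

/-- the top components of an element of `S p q` -/
noncomputable def topS (x : S p q) : ℤ →₀ ZMod p :=
  Finsupp.ofSupportFinite
    (fun i => ((x.1.left (Multiplicative.ofAdd i)).right).toAdd) (by
      have hx : (Function.mulSupport x.1.left).Finite := x.2
      refine (hx.preimage (f := Multiplicative.ofAdd) Multiplicative.ofAdd.injective.injOn).subset ?_
      intro i hi h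
      apply hi
      have h' : x.1.left (Multiplicative.ofAdd i) = 1 := h
      simp only [h', RegularWreathProduct.one_right, toAdd_one])

theorem topS_apply (x : S p q) (i : ℤ) :
    topS x i = ((x.1.left (Multiplicative.ofAdd i)).right).toAdd := rfl

/-- `S p q` embeds in a split extension of a `ZMod q`-module by the lamplighter group. -/
noncomputable def StoSD : S p q →* SD (MS p q) (Lamp p) where
  toFun x := ⟨fun y => ((x.1.left (Multiplicative.ofAdd y.1)).left
    (Multiplicative.ofAdd y.2)).toAdd, ⟨AddMonoidAlgebra.ofCoeff (topS x), x.1.right⟩⟩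
  map_one' := by
    refine SD.ext ?_ (SD.ext ?_ ?_)
    · rfl
    · show (AddMonoidAlgebra.ofCoeff (topS (1 : S p q)) : Lam p) = 0
      rw [AddMonoidAlgebra.ofCoeff_eq_zero]
      ext i
      rw [topS_apply]
      rfl
    · rfl
  map_mul' x y := by
    have h1 : ∀ i : ℤ, (x.1.right)⁻¹ * Multiplicative.ofAdd i
        = Multiplicative.ofAdd (i - x.1.right.toAdd) := by
      intro i
      rw [sub_eq_neg_add, ofAdd_add, ofAdd_neg, ofAdd_toAdd]
    refine SD.ext ?_ (SD.ext ?_ ?_)
    · funext z
      show (((x.1.left (Multiplicative.ofAdd z.1)).left (Multiplicative.ofAdd z.2)) *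
        ((y.1.left ((x.1.right)⁻¹ * Multiplicative.ofAdd z.1)).left
          ((x.1.left (Multiplicative.ofAdd z.1)).right⁻¹ * Multiplicative.ofAdd z.2))).toAdd =
        ((x.1.left (Multiplicative.ofAdd z.1)).left (Multiplicative.ofAdd z.2)).toAdd +
        ((y.1.left (Multiplicative.ofAdd (z.1 - x.1.right.toAdd))).left
          (Multiplicative.ofAdd (z.2 - topS x z.1))).toAdd
      have h2 : (x.1.left (Multiplicative.ofAdd z.1)).right⁻¹ * Multiplicative.ofAdd z.2
          = Multiplicative.ofAdd (z.2 - topS x z.1) := by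
        rw [topS_apply, sub_eq_neg_add, ofAdd_add, ofAdd_neg, ofAdd_toAdd]
      rw [h1, h2, toAdd_mul]
    · show (AddMonoidAlgebra.ofCoeff (topS (x * y)) : Lam p) =
        AddMonoidAlgebra.ofCoeff (topS x) + T x.1.right.toAdd * AddMonoidAlgebra.ofCoeff (topS y)
      ext i
      rw [AddMonoidAlgebra.coeff_add, Finsupp.add_apply, coeff_T_mul]
      show topS (x * y) i = topS x i + topS y (i - x.1.right.toAdd)
      rw [topS_apply, topS_apply, topS_apply, Subgroup.coe_mul, RegularWreathProduct.mul_left,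
        Pi.mul_apply, RegularWreathProduct.mul_right, toAdd_mul, h1]
    · rfl

theorem StoSD_injective : Function.Injective (StoSD (p := p) (q := q)) := by
  intro x y h
  have h1 : (fun z : ℤ × ZMod p => ((x.1.left (Multiplicative.ofAdd z.1)).left
      (Multiplicative.ofAdd z.2)).toAdd) = fun z => ((y.1.left (Multiplicative.ofAdd z.1)).left
      (Multiplicative.ofAdd z.2)).toAdd := congrArg SD.m h
  have h2 := congrArg SD.g h
  have h3 : topS x = topS y := AddMonoidAlgebra.ofCoeff_inj.1 (congrArg SD.m h2)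
  have h4 : x.1.right = y.1.right := congrArg SD.g h2
  apply Subtype.ext
  refine RegularWreathProduct.ext ?_ h4
  funext i
  refine RegularWreathProduct.ext ?_ ?_
  · funext j
    have := congrFun h1 (i.toAdd, j.toAdd)
    simpa using this
  · have := DFunLike.congr_fun h3 i.toAdd
    rw [topS_apply, topS_apply] at this
    simpa using this

/-- The laws of `(ℤ/q) ≀ ((ℤ/p) ≀ ℤ)` hold in `S p q`. -/
theorem sat_S (h : Sat L (UG p q)) : Sat L (S p q) :=
  (sat_module (k := ZMod q) (M := MS p q) h).of_injective StoSD StoSD_injective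

end SatS

/-! ### reduction to primes -/

/-- every abelian group is a module over `ZMod 0` -/
noncomputable def modZero (A : Type*) [AddCommGroup A] : Module (ZMod 0) A :=
  inferInstanceAs (Module ℤ A)

/-- from `q = 0` to arbitrary `q` -/
theorem sat_UG_right {p : ℕ} (h : Sat L (UG p 0)) (q : ℕ) : Sat L (UG p q) := by
  let _ : Module (ZMod 0) (MonoidAlgebra (ZMod q) (Lamp p)) := modZero _
  have : SMulCommClass (Lamp p) (ZMod 0) (MonoidAlgebra (ZMod q) (Lamp p)) :=
    ⟨fun g n x => by
      show g • ((show ℤ from n) • x) = (show ℤ from n) • (g • x)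
      rw [actMA_def, actMA_def, mul_smul_comm]⟩
  exact sat_module (k := ZMod 0) (M := MonoidAlgebra (ZMod q) (Lamp p)) h

/-- the reduction `ℤ ≀ ℤ → (ℤ/p) ≀ ℤ` -/
noncomputable def redLamp (p : ℕ) : Lamp 0 →* Lamp p :=
  SD.map (AddMonoidAlgebra.mapRingHom ℤ (ZMod.castHom (dvd_zero p) (ZMod p))).toAddMonoidHom
    (MonoidHom.id _) (fun g v => by
      rw [actLam_def, actLam_def]
      show (AddMonoidAlgebra.mapRingHom ℤ (ZMod.castHom (dvd_zero p) (ZMod p))) (T g.toAdd * v) =
        T g.toAdd * (AddMonoidAlgebra.mapRingHom ℤ (ZMod.castHom (dvd_zero p) (ZMod p))) v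
      rw [map_mul]
      congr 1
      show (AddMonoidAlgebra.mapRingHom ℤ (ZMod.castHom (dvd_zero p) (ZMod p)))
        (AddMonoidAlgebra.single g.toAdd 1) = AddMonoidAlgebra.single g.toAdd 1
      rw [AddMonoidAlgebra.mapRingHom_single, map_one])

theorem redLamp_surjective (p : ℕ) : Function.Surjective (redLamp p) := by
  intro x
  obtain ⟨v, hv⟩ := AddMonoidAlgebra.map_surjective
    (ZMod.castHom (dvd_zero p) (ZMod p)).toAddMonoidHom
    (ZMod.castHom_surjective (dvd_zero p)) x.m
  exact ⟨⟨v, x.g⟩, SD.ext hv rfl⟩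

/-- from `p = 0` to arbitrary `p` -/
theorem sat_UG_left {q : ℕ} (h : Sat L (UG 0 q)) (p : ℕ) : Sat L (UG p q) := by
  let _ : DistribMulAction (Lamp 0) (MonoidAlgebra (ZMod q) (Lamp p)) :=
    DistribMulAction.compHom _ (redLamp p)
  have : SMulCommClass (Lamp 0) (ZMod q) (MonoidAlgebra (ZMod q) (Lamp p)) :=
    ⟨fun g n x => by
      show (redLamp p g) • (n • x) = n • ((redLamp p g) • x)
      rw [actMA_def, actMA_def, mul_smul_comm]⟩
  have h1 : Sat L (SD (MonoidAlgebra (ZMod q) (Lamp p)) (Lamp 0)) :=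
    sat_module (k := ZMod q) (M := MonoidAlgebra (ZMod q) (Lamp p)) h
  refine h1.of_surjective (SD.map (AddMonoidHom.id _) (redLamp p) (fun g m => rfl)) ?_
  intro x
  obtain ⟨g, hg⟩ := redLamp_surjective p x.g
  exact ⟨⟨x.m, g⟩, SD.ext rfl hg⟩

/-- If no `X p` and no `S p q` satisfies the laws, then neither does any `UG p q`. -/
theorem all_UG (hX : ∀ p : ℕ, p.Prime → ¬ Sat L (X p))
    (hS : ∀ p q : ℕ, p.Prime → q.Prime → p ≠ q → ¬ Sat L (S p q)) :
    ∀ p q : ℕ, (p = 0 ∨ p.Prime) → (q = 0 ∨ q.Prime) → ¬ Sat L (UG p q) := by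
  have key : ∀ p q : ℕ, p.Prime → q.Prime → ¬ Sat L (UG p q) := by
    intro p q hp hq h
    by_cases hpq : p = q
    · subst hpq
      exact hX p hp (sat_X h)
    · exact hS p q hp hq hpq (sat_S h)
  intro p q hp hq h
  rcases hp with rfl | hp
  · rcases hq with rfl | hq
    · exact key 2 2 Nat.prime_two Nat.prime_two (sat_UG_right (sat_UG_left h 2) 2)
    · exact key 2 q Nat.prime_two hq (sat_UG_left h 2)
  · rcases hq with rfl | hq
    · exact key p 2 hp Nat.prime_two (sat_UG_right h 2)
    · exact key p q hp hq h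

end Pool.Agent.FGRF
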