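import Mathlib
import Pool.Agent.Lib_helper46.FGRF.GroupX
import Pool.Agent.Lib_helper46.FGRF.GroupS
import Pool.Agent.Lib_helper46.FGRF.GroupSat

/-!
# Block GR: summary
-/

set_option autoImplicit false

namespace Pool.Agent.FGRF

theorem X_fg {p : ℕ} (hp : p.Prime) : Group.FG (X p) := by
  have : NeZero p := ⟨hp.ne_zero⟩
  exact X.fg

theorem X_not_rf {p : ℕ} (hp : p.Prime) : ¬ Group.ResiduallyFinite (X p) := X.not_rf hp.ne_one

theorem S_fg {p q : ℕ} (hp : p.Prime) (hq : q.Prime) : Group.FG (S p q) := by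
  have : NeZero p := ⟨hp.ne_zero⟩
  have : NeZero q := ⟨hq.ne_zero⟩
  exact S.fg p q

theorem S_not_rf {p q : ℕ} (hp : p.Prime) (hq : q.Prime) : ¬ Group.ResiduallyFinite (S p q) :=
  S.not_rf p q hp.ne_one hq.ne_one

end Pool.Agent.FGRF
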