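import Mathlib
import Pool.Agent.Lib_helper35.FGRF.SLI
import Pool.Agent.Lib_helper35.FGRF.NSec

/-!
# Step C, part 1: small subgroups
-/

set_option autoImplicit false

namespace Pool.Agent.FGRF

universe u v w

section fil

variable {G : Type u} [Group G] {M : Type v} [AddCommGroup M] [DistribMulAction G M]

theorem dl_zero_arg (xs : List G) : dl xs (0 : M) = 0 := by
  induction xs with
  | nil => rfl
  | cons x xs ih => rw [dl_cons, ih, smul_zero, sub_zero]

theorem dl_add_arg (xs : List G) (a b : M) : dl xs (a + b) = dl xs a + dl xs b := by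
  induction xs with
  | nil => rfl
  | cons x xs ih => rw [dl_cons, dl_cons, dl_cons, ih, smul_add]; abel

theorem smul_dl (g : G) (xs : List G) (m : M) :
    g • dl xs m = dl (xs.map fun x => g * x * g⁻¹) (g • m) := by
  induction xs with
  | nil => rfl
  | cons x xs ih =>
    rw [List.map_cons, dl_cons, dl_cons, ← ih, smul_sub]
    congr 1
    rw [← mul_smul, ← mul_smul]
    congr 1
    group

variable (M) in
/-- the subgroup of `M` generated by the `j`-fold differences with elements of `X` -/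
def fil (X : Subgroup G) (j : ℕ) : AddSubgroup M :=
  AddSubgroup.closure {m | ∃ xs : List G, (∀ x ∈ xs, x ∈ X) ∧ xs.length = j ∧ ∃ m', m = dl xs m'}

theorem fil_zero (X : Subgroup G) : fil M X 0 = ⊤ := by
  rw [eq_top_iff]
  intro m _
  exact AddSubgroup.subset_closure ⟨[], by simp, rfl, m, rfl⟩

theorem smul_mem_fil {X : Subgroup G} {y : G} (hy : ∀ x ∈ X, y * x * y⁻¹ ∈ X) {j : ℕ} {m : M}
    (hm : m ∈ fil M X j) : y • m ∈ fil M X j := by
  have h : fil M X j ≤ (fil M X j).comap (DistribSMul.toAddMonoidHom M y) := by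
    conv_lhs => rw [fil]
    rw [AddSubgroup.closure_le]
    rintro _ ⟨xs, hxs, hl, m', rfl⟩
    refine AddSubgroup.subset_closure ⟨xs.map fun x => y * x * y⁻¹, ?_, by simpa, y • m',
      smul_dl y xs m'⟩
    intro x hx
    obtain ⟨z, hz, rfl⟩ := List.mem_map.1 hx
    exact hy z (hxs z hz)
  exact h hm

theorem smul_mem_fil_self {X : Subgroup G} {y : G} (hy : y ∈ X) {j : ℕ} {m : M}
    (hm : m ∈ fil M X j) : y • m ∈ fil M X j :=
  smul_mem_fil (fun _ hx => mul_mem (mul_mem hy hx) (inv_mem hy)) hm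

theorem sub_mem_fil {X : Subgroup G} {x : G} (hx : x ∈ X) {j : ℕ} {m : M}
    (hm : m ∈ fil M X j) : x • m - m ∈ fil M X (j + 1) := by
  have h : fil M X j ≤
      (fil M X (j + 1)).comap (DistribSMul.toAddMonoidHom M x - AddMonoidHom.id M) := by
    conv_lhs => rw [fil]
    rw [AddSubgroup.closure_le]
    rintro _ ⟨xs, hxs, hl, m', rfl⟩
    refine AddSubgroup.subset_closure ⟨x :: xs, ?_, by simp [hl], m', rfl⟩
    intro y hy
    rcases List.mem_cons.1 hy with rfl | hy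
    · exact hx
    · exact hxs y hy
  exact h hm

theorem fil_succ_le (X : Subgroup G) (j : ℕ) : fil M X (j + 1) ≤ fil M X j := by
  rw [fil, AddSubgroup.closure_le]
  rintro _ ⟨xs, hxs, hl, m', rfl⟩
  cases xs with
  | nil => simp at hl
  | cons x xs =>
    have h1 : dl xs m' ∈ fil M X j := AddSubgroup.subset_closure
      ⟨xs, fun y hy => hxs y (List.mem_cons_of_mem _ hy), by simpa using hl, m', rfl⟩
    exact sub_mem (smul_mem_fil_self (hxs x List.mem_cons_self) h1) h1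

variable (M) in
/-- the subgroup `X` of `G` acts nilpotently on `M` -/
def Small (X : Subgroup G) : Prop :=
  ∃ K : ℕ, ∀ xs : List G, (∀ x ∈ xs, x ∈ X) → xs.length = K → ∀ m : M, dl xs m = 0

theorem Small.fil_eq_bot {X : Subgroup G} (h : Small M X) : ∃ K, fil M X K = ⊥ := by
  obtain ⟨K, hK⟩ := h
  refine ⟨K, ?_⟩
  rw [eq_bot_iff, fil, AddSubgroup.closure_le]
  rintro _ ⟨xs, hxs, hl, m', rfl⟩
  exact hK xs hxs hl m'

theorem Small.mono {X Y : Subgroup G} (h : Small M X) (hYX : Y ≤ X) : Small M Y := by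
  obtain ⟨K, hK⟩ := h
  exact ⟨K, fun xs hxs => hK xs fun x hx => hYX (hxs x hx)⟩

variable (M) in
theorem small_bot : Small M (⊥ : Subgroup G) := by
  refine ⟨1, ?_⟩
  intro xs hxs hl m
  obtain ⟨x, rfl⟩ := List.length_eq_one_iff.1 hl
  have : x = 1 := hxs x List.mem_cons_self
  subst this
  simp

theorem Small.conj {X Y : Subgroup G} (h : Small M X) (g : G)
    (hY : ∀ y ∈ Y, g * y * g⁻¹ ∈ X) : Small M Y := by
  obtain ⟨K, hK⟩ := h
  refine ⟨K, fun xs hxs hl m => ?_⟩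
  have h1 := smul_dl g xs m
  rw [hK (xs.map fun x => g * x * g⁻¹) ?_ (by simpa) (g • m)] at h1
  · have h2 := congrArg (fun m => g⁻¹ • m) h1
    simpa using h2
  · intro x hx
    obtain ⟨z, hz, rfl⟩ := List.mem_map.1 hx
    exact hY z (hxs z hz)

/-- a filtration whose steps are killed by long lists gives a nilpotent action -/
theorem dl_eq_zero_of_filtration (T : Set G) (F : ℕ → AddSubgroup M) (K₁ K₂ : ℕ) (h0 : F 0 = ⊤)
    (hK : F K₁ = ⊥)
    (hstep : ∀ j, ∀ xs : List G, (∀ x ∈ xs, x ∈ T) → xs.length = K₂ → ∀ m ∈ F j,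
      dl xs m ∈ F (j + 1)) :
    ∀ xs : List G, (∀ x ∈ xs, x ∈ T) → xs.length = K₁ * K₂ → ∀ m : M, dl xs m = 0 := by
  have key : ∀ j, ∀ xs : List G, (∀ x ∈ xs, x ∈ T) → xs.length = j * K₂ → ∀ m : M,
      dl xs m ∈ F j := by
    intro j
    induction j with
    | zero => intro xs _ _ m; rw [h0]; trivial
    | succ j ih =>
      intro xs hxs hl m
      rw [← List.take_append_drop K₂ xs, dl_append]
      refine hstep j _ (fun x hx => hxs x (List.mem_of_mem_take hx)) ?_ _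
        (ih _ (fun x hx => hxs x (List.mem_of_mem_drop hx)) ?_ m)
      · rw [List.length_take, hl, add_mul, one_mul]
        omega
      · rw [List.length_drop, hl, add_mul, one_mul]
        omega
  intro xs hxs hl m
  have := key K₁ xs hxs hl m
  rwa [hK, AddSubgroup.mem_bot] at this

theorem dl_congr_mod {F₁ F₂ : AddSubgroup M} {Y : Subgroup G}
    (h₁ : ∀ y ∈ Y, ∀ m ∈ F₁, y • m ∈ F₁) (h₂ : ∀ y ∈ Y, ∀ m ∈ F₂, y • m ∈ F₂) (f : G → G)
    (xs : List G) (hx : ∀ x ∈ xs, x ∈ Y ∧ f x ∈ Y ∧ ∀ m ∈ F₁, x • m - f x • m ∈ F₂) (m : M)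
    (hm : m ∈ F₁) : dl xs m - dl (xs.map f) m ∈ F₂ ∧ dl (xs.map f) m ∈ F₁ := by
  induction xs with
  | nil => exact ⟨by simp, hm⟩
  | cons x xs ih =>
    obtain ⟨ih1, ih2⟩ := ih fun y hy => hx y (List.mem_cons_of_mem _ hy)
    obtain ⟨hx1, hx2, hx3⟩ := hx x List.mem_cons_self
    refine ⟨?_, ?_⟩
    · rw [List.map_cons, dl_cons, dl_cons]
      have h3 : x • dl xs m - dl xs m - (f x • dl (xs.map f) m - dl (xs.map f) m) =
          x • (dl xs m - dl (xs.map f) m) + (x • dl (xs.map f) m - f x • dl (xs.map f) m) -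
            (dl xs m - dl (xs.map f) m) := by
        rw [smul_sub]; abel
      rw [h3]
      exact sub_mem (add_mem (h₂ x hx1 _ ih1) (hx3 _ ih2)) ih1
    · rw [List.map_cons, dl_cons]
      exact sub_mem (h₁ _ hx2 _ ih2) ih2

/-- The product of small subgroups, one normalising the other, is small. -/
theorem Small.of_prod {X₁ X₂ X : Subgroup G} (h1 : Small M X₁) (h2 : Small M X₂)
    (hn : ∀ y ∈ X₂, ∀ x ∈ X₁, y * x * y⁻¹ ∈ X₁)
    (hX : ∀ x ∈ X, ∃ a ∈ X₁, ∃ b ∈ X₂, x = a * b) : Small M X := by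
  obtain ⟨K₁, hK₁⟩ := h1.fil_eq_bot
  obtain ⟨K₂, hK₂⟩ := h2
  refine ⟨K₁ * K₂, ?_⟩
  refine dl_eq_zero_of_filtration (X : Set G) (fil M X₁) K₁ K₂ (fil_zero X₁) hK₁ ?_
  intro j xs hxs hl m hm
  choose! fa hfa fb hfb hfe using hX
  let Y : Subgroup G := X₁ ⊔ X₂
  have hYn : ∀ y ∈ Y, ∀ x ∈ X₁, y * x * y⁻¹ ∈ X₁ := by
    have h3 : Y ≤ Subgroup.normalizer (X₁ : Set G) := by
      refine sup_le Subgroup.le_normalizer ?_
      intro y hy
      rw [Subgroup.mem_normalizer_iff]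
      intro x
      constructor
      · exact hn y hy x
      · intro h
        have := hn y⁻¹ (inv_mem hy) _ h
        have e : y⁻¹ * (y * x * y⁻¹) * y⁻¹⁻¹ = x := by group
        rwa [e] at this
    intro y hy x hx
    exact ((Subgroup.mem_normalizer_iff).1 (h3 hy) x).1 hx
  have h3 := dl_congr_mod (F₁ := fil M X₁ j) (F₂ := fil M X₁ (j + 1)) (Y := Y)
    (fun y hy m hm => smul_mem_fil (hYn y hy) hm) (fun y hy m hm => smul_mem_fil (hYn y hy) hm)
    fb xs (by
      intro x hx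
      have hx' := hxs x hx
      have hb : fb x ∈ Y := Subgroup.mem_sup_right (hfb x hx')
      have ha : fa x ∈ Y := Subgroup.mem_sup_left (hfa x hx')
      refine ⟨?_, hb, ?_⟩
      · rw [hfe x hx']
        exact mul_mem ha hb
      · intro m hm
        have e : x • m = fa x • fb x • m := by rw [← mul_smul, ← hfe x hx']
        rw [e]
        exact sub_mem_fil (hfa x hx') (smul_mem_fil (hYn _ hb) hm)) m hm
  have h4 : dl (xs.map fb) m = 0 := by
    refine hK₂ _ ?_ (by simpa using hl) m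
    intro x hx
    obtain ⟨z, hz, rfl⟩ := List.mem_map.1 hx
    exact hfb z (hxs z hz)
  rw [h4, sub_zero] at h3
  exact h3.1

end fil

section quot

variable {M : Type v} [AddCommGroup M] {Γ : Type w} [Group Γ] [DistribMulAction Γ M]

theorem dl_mem_of_quot (N₁ N₂ : AddSubgroup M)
    (h₁ : ∀ (g : Γ), ∀ x ∈ N₁, g • x ∈ N₁) (h₂ : ∀ (g : Γ), ∀ x ∈ N₂, g • x ∈ N₂)
    (xs : List Γ) (m : M) (hm : m ∈ N₁)
    (h : letI := subAct N₁ h₁
      letI := quotAct (N₂.addSubgroupOf N₁) (fun (g : Γ) x hx => h₂ g x.1 hx)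
      dl xs (QuotientAddGroup.mk' (N₂.addSubgroupOf N₁) ⟨m, hm⟩) = 0) : dl xs m ∈ N₂ := by
  let i1 : DistribMulAction Γ N₁ := subAct N₁ h₁
  let i2 : DistribMulAction Γ (N₁ ⧸ N₂.addSubgroupOf N₁) :=
    quotAct (N₂.addSubgroupOf N₁) (fun (g : Γ) x hx => h₂ g x.1 hx)
  have h2 := dl_map (QuotientAddGroup.mk' (N₂.addSubgroupOf N₁)) xs id (fun g _ m => rfl) ⟨m, hm⟩
  rw [List.map_id] at h2
  have h3 : QuotientAddGroup.mk' (N₂.addSubgroupOf N₁) (dl xs (⟨m, hm⟩ : N₁)) = 0 := by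
    rw [h2]; exact h
  have h4 := (QuotientAddGroup.eq_zero_iff _).1 h3
  have h5 := dl_map N₁.subtype xs id (fun g _ m => rfl) ⟨m, hm⟩
  rw [List.map_id] at h5
  have h6 : (dl xs (⟨m, hm⟩ : N₁)).1 ∈ N₂ := h4
  have h7 : (dl xs (⟨m, hm⟩ : N₁)).1 = dl xs m := h5
  rw [← h7]
  exact h6

end quot

end Pool.Agent.FGRF
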