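import Mathlib
import Pool.Agent.Lib_helper46.FGRF.StepC1
import Pool.Agent.Lib_helper93.FGRF.StepB
import Pool.Agent.Lib_helper93.FGRF.MaxN
import Pool.Agent.Lib_helper93.FGRF.PropU

/-!
# Step C, part 1b: the annihilator argument
-/

set_option autoImplicit false

namespace Pool.Agent.FGRF

universe u v w

open Pool.Agent.LibH11.PHall

section acc

variable {J : Type v} [CommRing J] {G : Type u} [Group G] {M : Type w} [AddCommGroup M]
  [Module J M] [DistribMulAction G M] [SMulCommClass G J M]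

theorem fg_of_acc (M0 : Submodule J M) (hacc : ACC (⊤ : Subgroup G) M0) (N : Submodule J M)
    (hN0 : N ≤ M0) (hN : ∀ g : G, ∀ x ∈ N, g • x ∈ N) :
    ∃ T : Set M, T.Finite ∧ N = hspan J (⊤ : Subgroup G) T := by
  by_contra hcon
  push Not at hcon
  have hstep : ∀ T : {T : Set M // T.Finite ∧ T ⊆ N}, ∃ x ∈ N,
      x ∉ hspan J (⊤ : Subgroup G) (T : Set M) := by
    intro T
    by_contra h
    push Not at h
    exact hcon T T.2.1 (le_antisymm h (hspan_le T.2.2 (fun g _ x hx => hN g x hx)))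
  choose x hxN hx using hstep
  let F : ℕ → {T : Set M // T.Finite ∧ T ⊆ N} := fun n =>
    Nat.rec ⟨∅, Set.finite_empty, Set.empty_subset _⟩
      (fun _ T => ⟨insert (x T) (T : Set M), T.2.1.insert _,
        Set.insert_subset (hxN T) T.2.2⟩) n
  have hF : ∀ n, (F (n + 1)).1 = insert (x (F n)) (F n).1 := fun n => rfl
  obtain ⟨n, hn⟩ := hacc (fun n => hspan J (⊤ : Subgroup G) (F n).1)
    (monotone_nat_of_le_succ fun n => hspan_mono (by rw [hF]; exact Set.subset_insert _ _))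
    (fun n => (hspan_le (F n).2.2 (fun g _ x hx => hN g x hx)).trans hN0)
    (fun n => inv_hspan _ _)
  have h1 := hn (n + 1) (Nat.le_succ n)
  apply hx (F n)
  rw [← h1]
  apply subset_hspan
  rw [hF]
  exact Set.mem_insert _ _

end acc

/-- the endomorphisms of `V`, with `G` acting by right multiplication -/
def RE (G : Type u) (V : Type v) [Group G] [AddCommGroup V] [DistribMulAction G V] : Type v :=
  Module.End ℤ V

namespace RE

variable {G : Type u} [Group G] {V : Type v} [AddCommGroup V] [DistribMulAction G V]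

instance : AddCommGroup (RE G V) := inferInstanceAs (AddCommGroup (Module.End ℤ V))

/-- an element as an endomorphism -/
def en (r : RE G V) : Module.End ℤ V := r

/-- an endomorphism as an element -/
def mk (r : Module.End ℤ V) : RE G V := r

theorem en_mk (r : Module.End ℤ V) : (mk (G := G) r).en = r := rfl

theorem en_add (r s : RE G V) : (r + s).en = r.en + s.en := rfl

theorem en_zsmul (n : ℤ) (r : RE G V) : (n • r).en = n • r.en := rfl

theorem en_injective : Function.Injective (en : RE G V → Module.End ℤ V) := fun _ _ h => h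

instance : DistribMulAction G (RE G V) where
  smul g r := mk (r.en * τe g⁻¹)
  one_smul r := by
    apply en_injective
    ext v
    change r.en ((1 : G)⁻¹ • v) = r.en v
    rw [inv_one, one_smul]
  mul_smul g h r := by
    apply en_injective
    ext v
    change r.en ((g * h)⁻¹ • v) = r.en (h⁻¹ • g⁻¹ • v)
    rw [mul_inv_rev, mul_smul]
  smul_zero g := by
    apply en_injective
    ext v
    rfl
  smul_add g r s := by
    apply en_injective
    ext v
    rfl

theorem smul_en (g : G) (r : RE G V) (v : V) : (g • r).en v = r.en (g⁻¹ • v) := rfl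

instance : SMulCommClass G ℤ (RE G V) :=
  ⟨fun g n m => (map_zsmul (DistribSMul.toAddMonoidHom _ g) n m)⟩

/-- the span of the image of `G` -/
def E0 (G : Type u) (V : Type v) [Group G] [AddCommGroup V] [DistribMulAction G V] :
    Submodule ℤ (RE G V) := hspan ℤ (⊤ : Subgroup G) {mk 1}

theorem tau_mem (g : G) : mk (τe g) ∈ E0 G V := by
  refine Submodule.subset_span ⟨g⁻¹, Subgroup.mem_top _, mk 1, rfl, ?_⟩
  apply en_injective
  ext v
  rw [smul_en, inv_inv]
  rfl

theorem tau_mul_mem (g : G) {r : RE G V} (hr : r ∈ E0 G V) : mk (τe g * r.en) ∈ E0 G V := by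
  let φ : RE G V →+ RE G V :=
    { toFun := fun r => mk (τe g * r.en)
      map_zero' := by
        apply en_injective
        ext v
        change g • (0 : V) = 0
        rw [smul_zero]
      map_add' := fun r s => by
        apply en_injective
        ext v
        change g • (r.en v + s.en v) = g • r.en v + g • s.en v
        rw [smul_add] }
  have h1 : E0 G V ≤ (E0 G V).comap φ.toIntLinearMap := by
    conv_lhs => rw [E0, hspan]
    rw [Submodule.span_le]
    rintro _ ⟨h, -, s, hs, rfl⟩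
    rw [Set.mem_singleton_iff] at hs
    subst hs
    change mk (τe g * (h • (mk 1 : RE G V)).en) ∈ E0 G V
    have h2 : mk (τe g * (h • (mk 1 : RE G V)).en) = (mk (τe (g * h⁻¹)) : RE G V) := by
      apply en_injective
      ext v
      change g • h⁻¹ • v = (g * h⁻¹) • v
      rw [mul_smul]
    rw [h2]
    exact tau_mem _
  exact h1 hr

theorem pow_mem (g : G) (n s : ℕ) : mk ((τe g ^ n - 1) ^ s) ∈ E0 G V := by
  have h1 : ∀ r : RE G V, r ∈ E0 G V → mk ((τe g ^ n - 1) * r.en) ∈ E0 G V := by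
    intro r hr
    have h2 : mk ((τe g ^ n - 1) * r.en) = mk (τe (g ^ n) * r.en) - r := by
      apply en_injective
      ext v
      change (τe g ^ n - 1) (r.en v) = g ^ n • r.en v - r.en v
      rw [LinearMap.sub_apply, τe_pow]
      rfl
    rw [h2]
    exact sub_mem (tau_mul_mem _ hr) hr
  induction s with
  | zero =>
    rw [pow_zero]
    exact subset_hspan _ _ rfl
  | succ s ih =>
    rw [pow_succ']
    exact h1 _ ih

end RE

section noether

variable {G : Type u} [Group G] {M : Type v} [AddCommGroup M] [DistribMulAction G M]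
  {P : Subgroup G}

theorem small_toSub_sup {S : NSec G} {N₁ N₂ : AddSubgroup S.Mod} (h1 : Small M (NSec.toSub N₁))
    (h2 : Small M (NSec.toSub N₂)) : Small M (NSec.toSub (N₁ ⊔ N₂)) := by
  refine Small.of_prod h1 h2 ?_ ?_
  · rintro y ⟨hy, -⟩ x ⟨hx, hx'⟩
    refine ⟨S.hA.conj_mem _ hx _, ?_⟩
    have h3 : (NSec.cl (y * x * y⁻¹) (S.hA.conj_mem _ hx _) : S.Mod) = NSec.cl x hx := by
      rw [NSec.cl_eq_iff]
      exact S.comm y hy x hx
    rw [h3]
    exact hx'
  · rintro x ⟨hx, hx'⟩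
    obtain ⟨a, ha, b, hb, hab⟩ := AddSubgroup.mem_sup.1 hx'
    obtain ⟨b, hbA, rfl⟩ := NSec.cl_surjective b
    refine ⟨x * b⁻¹, ⟨mul_mem hx (inv_mem hbA), ?_⟩, b, ⟨hbA, hb⟩, by group⟩
    have h3 : NSec.cl (x * b⁻¹) (mul_mem hx (inv_mem hbA)) = a := by
      rw [NSec.cl_mul hx (inv_mem hbA), NSec.cl_inv hbA, ← hab]
      abel
    rw [h3]
    exact ha

theorem toSub_mono {S : NSec G} {N₁ N₂ : AddSubgroup S.Mod} (h : N₁ ≤ N₂) :
    NSec.toSub N₁ ≤ NSec.toSub N₂ := by
  rintro x ⟨hx, hx'⟩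
  exact ⟨hx, h hx'⟩

theorem small_toSub_bot {S : NSec G} (h : Small M S.B) :
    Small M (NSec.toSub (⊥ : AddSubgroup S.Mod)) := by
  refine h.mono ?_
  rintro x ⟨hx, hx'⟩
  exact NSec.cl_eq_zero.1 hx'

/-- the image of an endomorphism -/
def rg {V : Type v} [AddCommGroup V] (r : Module.End ℤ V) : AddSubgroup V :=
  r.toAddMonoidHom.range

theorem mem_rg {V : Type v} [AddCommGroup V] {r : Module.End ℤ V} {v : V} :
    v ∈ rg r ↔ ∃ w, r w = v := Iff.rfl

/-- the small endomorphisms -/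
def smallId (M : Type v) [AddCommGroup M] [DistribMulAction G M] (S : NSec G)
    (hB : Small M S.B) : Submodule ℤ (RE G S.Mod) where
  carrier := {r | r ∈ RE.E0 G S.Mod ∧ Small M (NSec.toSub (rg r.en))}
  zero_mem' := by
    refine ⟨zero_mem _, (small_toSub_bot hB).mono (toSub_mono ?_)⟩
    rintro _ ⟨w, rfl⟩
    rfl
  add_mem' := by
    rintro r s ⟨hr, hr'⟩ ⟨hs, hs'⟩
    refine ⟨add_mem hr hs, (small_toSub_sup hr' hs').mono (toSub_mono ?_)⟩
    rintro _ ⟨w, rfl⟩
    exact AddSubgroup.add_mem_sup ⟨w, rfl⟩ ⟨w, rfl⟩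
  smul_mem' := by
    rintro n r ⟨hr, hr'⟩
    refine ⟨Submodule.smul_mem _ n hr, hr'.mono (toSub_mono ?_)⟩
    rintro _ ⟨w, rfl⟩
    change n • r.en w ∈ rg r.en
    exact zsmul_mem (show r.en w ∈ rg r.en from ⟨w, rfl⟩) n

theorem eq_zero_of_small (hP : P.Normal) (hc : CCov P ⊤) (S : NSec G)
    (hact : ∀ g ∈ P, ∀ m : S.Mod, g • m = m) (hB : Small M S.B)
    (hmax : ∀ B' : Subgroup G, B'.Normal → B' ≤ S.A → Small M B' → S.B ≤ B' → B' = S.B)
    (r : Module.End ℤ S.Mod) (hr : RE.mk r ∈ RE.E0 G S.Mod)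
    (hrs : Small M (NSec.toSub (rg r))) : r = 0 := by
  have hacc : ACC (⊤ : Subgroup G) (RE.E0 G S.Mod) := by
    refine acc_of_ccov (J := ℤ) hP ?_ hc _ (Set.finite_singleton _)
    intro g hg x
    apply RE.en_injective
    ext v
    rw [RE.smul_en, hact _ (inv_mem hg)]
  obtain ⟨T, hT, hTe⟩ := fg_of_acc (RE.E0 G S.Mod) hacc (smallId M S hB) (fun r hr => hr.1) (by
    rintro g r ⟨hr, hr'⟩
    refine ⟨inv_hspan _ _ g (Subgroup.mem_top g) r hr, hr'.mono (toSub_mono ?_)⟩
    rintro _ ⟨w, rfl⟩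
    exact ⟨g⁻¹ • w, rfl⟩)
  have hTa : ∀ r ∈ T, r ∈ smallId M S hB := by
    intro r hr
    rw [hTe]
    exact subset_hspan _ _ hr
  -- the sum of the images
  let W : AddSubgroup S.Mod := ⨆ r ∈ T, rg r.en
  have hWs : Small M (NSec.toSub W) := by
    have key : ∀ T' : Set (RE G S.Mod), T'.Finite → T' ⊆ T →
        Small M (NSec.toSub (⨆ r ∈ T', rg r.en)) := by
      intro T' hT'
      induction T', hT' using Set.Finite.induction_on with
      | empty =>
        intro _
        simp only [Set.mem_empty_iff_false, iSup_false, iSup_bot]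
        exact small_toSub_bot hB
      | @insert r T' _ _ ih =>
        intro hsub
        rw [iSup_insert]
        exact small_toSub_sup (hTa r (hsub (Set.mem_insert _ _))).2
          (ih ((Set.subset_insert _ _).trans hsub))
    exact key T hT subset_rfl
  have hle : ∀ r ∈ smallId M S hB, rg r.en ≤ W := by
    intro r hr
    let N : Submodule ℤ (RE G S.Mod) :=
      { carrier := {r | rg r.en ≤ W}
        zero_mem' := by
          rintro _ ⟨w, rfl⟩
          exact zero_mem _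
        add_mem' := by
          rintro r s hr hs _ ⟨w, rfl⟩
          exact add_mem (hr ⟨w, rfl⟩) (hs ⟨w, rfl⟩)
        smul_mem' := by
          rintro n r hr _ ⟨w, rfl⟩
          exact zsmul_mem (show r.en w ∈ W from hr ⟨w, rfl⟩) n }
    have h1 : hspan ℤ (⊤ : Subgroup G) T ≤ N := by
      refine hspan_le ?_ ?_
      · intro r hr
        change rg r.en ≤ W
        exact le_iSup₂ (f := fun (r : RE G S.Mod) (_ : r ∈ T) => rg r.en) r hr
      · rintro g - r hr _ ⟨w, rfl⟩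
        exact hr ⟨g⁻¹ • w, rfl⟩
    rw [hTe] at hr
    exact h1 hr
  have hinv : ∀ (g : G), ∀ x ∈ W, g • x ∈ W := by
    intro g
    have h1 : W ≤ W.comap (DistribSMul.toAddMonoidHom S.Mod g) := by
      refine iSup₂_le fun r hr => ?_
      rintro _ ⟨w, rfl⟩
      change g • r.en w ∈ W
      refine hle (RE.mk (τe g * r.en)) ⟨RE.tau_mul_mem g (hTa r hr).1, ?_⟩ ⟨w, rfl⟩
      refine (hTa r hr).2.conj g⁻¹ ?_
      rintro y ⟨hy, w', hw'⟩
      refine ⟨S.hA.conj_mem y hy _, w', ?_⟩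
      rw [← NSec.smul_cl g⁻¹ hy, ← hw']
      change r.en w' = g⁻¹ • g • r.en w'
      rw [inv_smul_smul]
    exact fun x hx => h1 hx
  have h2 := hmax (NSec.toSub W) (NSec.toSub_normal hinv) (NSec.toSub_le W) hWs (NSec.le_toSub W)
  have h3 : rg r ≤ W := hle (RE.mk r) ⟨hr, hrs⟩
  ext v
  have h4 : r v ∈ W := h3 ⟨v, rfl⟩
  obtain ⟨x, hx, hxe⟩ := NSec.cl_surjective (r v)
  rw [hxe] at h4
  have h5 : x ∈ NSec.toSub W := ⟨hx, h4⟩
  rw [h2] at h5
  rw [hxe]
  exact NSec.cl_eq_zero.2 h5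

end noether

/-! ### Prop U' on sections -/

theorem propU_section (L : Set (FreeGroup ℕ))
    (hU : ∀ p q : ℕ, p.Prime → q.Prime → ¬ Sat L (UG p q)) :
    ∃ n s K : ℕ, 1 ≤ n ∧
      ∀ (M : Type v) [AddCommGroup M] (G : Type u) [Group G] [DistribMulAction G M],
        Sat L (SD M G) →
        ∀ (A : Subgroup G) (t : G), A.Normal →
        ∀ N₁ N₂ : AddSubgroup M, (∀ (g : G), ∀ x ∈ N₁, g • x ∈ N₁) →
          (∀ (g : G), ∀ x ∈ N₂, g • x ∈ N₂) →
          (∀ a ∈ A, ∀ b ∈ A, ∀ x ∈ N₁, a • b • x - b • a • x ∈ N₂) →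
          ∀ xs : List G, xs.length = K → (∀ x ∈ xs, ∃ a ∈ A, x = (cg t n)^[s] a) →
            ∀ m ∈ N₁, dl xs m ∈ N₂ := by
  obtain ⟨n, s, K, hn, H⟩ := propU_group.{u, v} L hU
  refine ⟨n, s, K, hn, ?_⟩
  intro M _ G _ _ hsat A t hA N₁ N₂ h₁ h₂ hcomm xs hxs hxA m hm
  refine dl_mem_of_quot N₁ N₂ h₁ h₂ xs m hm ?_
  let i1 : DistribMulAction G N₁ := subAct N₁ h₁
  have h₂' : ∀ (g : G), ∀ x ∈ N₂.addSubgroupOf N₁, g • x ∈ N₂.addSubgroupOf N₁ :=
    fun g x hx => h₂ g x.1 hx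
  let i2 : DistribMulAction G (N₁ ⧸ N₂.addSubgroupOf N₁) := quotAct (N₂.addSubgroupOf N₁) h₂'
  have hs := sat_section hsat N₁ h₁ (N₂.addSubgroupOf N₁) h₂'
  refine H (N₁ ⧸ N₂.addSubgroupOf N₁) G hs A t (fun a ha => hA.conj_mem a ha t)
    (fun a ha => ?_) ?_ xs hxs hxA _
  · have := hA.conj_mem a ha t⁻¹
    rwa [inv_inv] at this
  · intro a ha b hb x
    obtain ⟨x, rfl⟩ := QuotientAddGroup.mk'_surjective _ x
    rw [← sub_eq_zero]
    exact (QuotientAddGroup.eq_zero_iff _).2 (hcomm a ha b hb x.1 x.2)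

/-- Step C, part 1. -/
theorem stepC1 (L : Set (FreeGroup ℕ)) (hA : PBa.{u} L)
    (hU : ∀ p q : ℕ, p.Prime → q.Prime → ¬ Sat L (UG p q)) :
    ∃ n s : ℕ, 1 ≤ n ∧ ∀ (G : Type u) [Group G] (M : Type v) [AddCommGroup M]
      [DistribMulAction G M], Group.FG G → Sat L (SD M G) → ∀ P : Subgroup G, P.Normal →
      Group.IsNilpotent P → CCov P ⊤ →
      ∃ B : Subgroup G, B.Normal ∧ B ≤ P ∧
        (∃ K : ℕ, ∀ xs : List G, (∀ x ∈ xs, x ∈ B) → xs.length = K → ∀ m : M, dl xs m = 0) ∧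
        ∀ (t : G), ∀ a ∈ P, (∀ y ∈ P, y * a * y⁻¹ * a⁻¹ ∈ B) → (cg t n)^[s] a ∈ B := by
  obtain ⟨n, s, K, hn, H⟩ := propU_section.{u, v} L hU
  refine ⟨n, s, hn, ?_⟩
  intro G _ M _ _ hG hsat P hP hnil hc
  have hsatG : Sat L G := hsat.of_surjective SD.projg (fun g => ⟨⟨0, g⟩, rfl⟩)
  obtain ⟨B, ⟨hBn, hBP, hBs⟩, hBmax⟩ := exists_maximal_normal hA hsatG hG hP hnil hc
    {B | B.Normal ∧ B ≤ P ∧ Small M B} (fun B hB => ⟨hB.1, hB.2.1⟩)
    ⟨⊥, inferInstance, bot_le, small_bot M⟩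
  refine ⟨B, hBn, hBP, hBs, ?_⟩
  let S : NSec G :=
    { A := cstep P B hBn
      B := B
      hA := cstep_normal hP hBn
      hB := hBn
      le := fun x hx => ⟨hBP hx, fun y _ => mul_mem (hBn.conj_mem x hx y) (inv_mem hx)⟩
      comm := fun _ hx _ hy => hy.2 _ hx.1 }
  have hact : ∀ g ∈ P, ∀ m : S.Mod, g • m = m := by
    intro g hg m
    obtain ⟨x, hx, rfl⟩ := NSec.cl_surjective m
    rw [NSec.smul_cl, NSec.cl_eq_iff]
    exact hx.2 g hg
  have hmax : ∀ B' : Subgroup G, B'.Normal → B' ≤ S.A → Small M B' → S.B ≤ B' → B' = S.B :=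
    fun B' h1 h2 h3 h4 => hBmax B' ⟨h1, fun x hx => (h2 hx).1, h3⟩ h4
  obtain ⟨K₁, hK₁⟩ := hBs.fil_eq_bot
  intro t a ha hay
  have haA : a ∈ S.A := ⟨ha, hay⟩
  have hsm : Small M (NSec.toSub (rg ((τe (M := S.Mod) t ^ n - 1) ^ s))) := by
    refine ⟨K₁ * K, ?_⟩
    refine dl_eq_zero_of_filtration
      (NSec.toSub (rg ((τe (M := S.Mod) t ^ n - 1) ^ s)) : Set G) (fil M B) K₁ K (fil_zero B)
      hK₁ ?_
    intro j xs hxs hl m hm
    have hinv : ∀ j, ∀ (g : G), ∀ x ∈ fil M B j, g • x ∈ fil M B j := fun j g x hx =>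
      smul_mem_fil (fun y hy => hBn.conj_mem y hy g) hx
    have hex : ∀ x ∈ NSec.toSub (rg ((τe (M := S.Mod) t ^ n - 1) ^ s)),
        ∃ c ∈ S.A, x * ((cg t n)^[s] c)⁻¹ ∈ B := by
      rintro x ⟨hx, w, hw⟩
      obtain ⟨c, hc, rfl⟩ := NSec.cl_surjective w
      obtain ⟨h1, h2⟩ := cl_cg_iterate hc t n s
      refine ⟨c, hc, ?_⟩
      have h3 : NSec.cl x hx = NSec.cl ((cg t n)^[s] c) h1 := by
        rw [h2, dt_iterate]
        exact hw.symm
      exact NSec.cl_eq_iff.1 h3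
    choose! f hfA hfB using hex
    have h3 := dl_congr_mod (F₁ := fil M B j) (F₂ := fil M B (j + 1)) (Y := (⊤ : Subgroup G))
      (fun g _ x hx => hinv j g x hx) (fun g _ x hx => hinv (j + 1) g x hx)
      (fun x => (cg t n)^[s] (f x)) xs (by
        intro x hx
        refine ⟨Subgroup.mem_top _, Subgroup.mem_top _, fun m hm => ?_⟩
        have h4 := hfB x (hxs x hx)
        have h5 := sub_mem_fil h4 (hinv j ((cg t n)^[s] (f x)) m hm)
        rw [← mul_smul, inv_mul_cancel_right] at h5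
        exact h5) m hm
    have h4 : dl (xs.map fun x => (cg t n)^[s] (f x)) m ∈ fil M B (j + 1) := by
      refine H M G hsat S.A t S.hA (fil M B j) (fil M B (j + 1)) (hinv j) (hinv (j + 1)) ?_ _
        (by simpa using hl) ?_ m hm
      · intro a ha b hb x hx
        have h6 : a * b * a⁻¹ * b⁻¹ ∈ B := S.comm a ha b hb
        have h7 := sub_mem_fil h6 (hinv j (b * a) x hx)
        rw [← mul_smul] at h7
        have h8 : a * b * a⁻¹ * b⁻¹ * (b * a) = a * b := by group
        rw [h8, mul_smul, mul_smul] at h7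
        exact h7
      · intro y hy
        obtain ⟨x, hx, rfl⟩ := List.mem_map.1 hy
        exact ⟨f x, hfA x (hxs x hx), rfl⟩
    have h5 := add_mem h3.1 h4
    rwa [sub_add_cancel] at h5
  have h0 := eq_zero_of_small hP hc S hact hBs hmax _ (RE.pow_mem t n s) hsm
  obtain ⟨h1, h2⟩ := cl_cg_iterate haA t n s
  rw [dt_iterate, h0, LinearMap.zero_apply] at h2
  exact NSec.cl_eq_zero.1 h2

end Pool.Agent.FGRF
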