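import Mathlib
import Pool.Agent.Lib_helper46.FGRF.StepC1b
import Pool.Agent.Lib_helper93.FGRF.StepC2F
import Pool.Agent.Lib_helper35.FGRF.StepD

/-!
# Step C
-/

set_option autoImplicit false

namespace Pool.Agent.FGRF

universe u v w

theorem ccov_of_lcs_le {G : Type u} [Group G] (hG : Group.FG G) (P : Subgroup G) (hP : P.Normal)
    (h : ∃ c, (⊤ : Subgroup G).lowerCentralSeries c ≤ P) : CCov P ⊤ := by
  refine ccov_of_quotient_nilpotent hG P ?_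
  obtain ⟨c, hc⟩ := h
  rw [Subgroup.nilpotent_iff_lowerCentralSeries]
  refine ⟨c, ?_⟩
  have h1 := Subgroup.map_lowerCentralSeries (S := (⊤ : Subgroup G)) (QuotientGroup.mk' P) c
  rw [Subgroup.map_top_of_surjective _ (QuotientGroup.mk'_surjective P)] at h1
  rw [← h1, eq_bot_iff]
  refine (Subgroup.map_mono hc).trans ?_
  rintro _ ⟨x, hx, rfl⟩
  exact (QuotientGroup.eq_one_iff x).2 hx

/-- Step C, with Lemma VN as a hypothesis. -/
theorem stepC_aux (L : Set (FreeGroup ℕ)) (hA : PBa.{u} L) (hPB : PBb.{u} L)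
    (hU : ∀ p q : ℕ, p.Prime → q.Prime → ¬ Sat L (UG p q))
    (hvn : ∀ (G : Type u) [Group G] (P : Subgroup G), P.Normal → CCov P ⊤ →
      ∀ (n s : ℕ), 1 ≤ n → ∀ S : NSec G, (∀ x ∈ P, ∀ v : S.Mod, x • v = v) →
      (∀ (t : G) (v : S.Mod), (fun v : S.Mod => t ^ n • v - v)^[s] v = 0) →
      ∃ H : Subgroup G, H.Normal ∧ P ≤ H ∧ H.FiniteIndex ∧ ∃ k : ℕ,
        ∀ xs : List G, (∀ x ∈ xs, x ∈ H) → xs.length = k → ∀ v : S.Mod, dl xs v = 0) :
    StepC.{u, v} L := by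
  intro G _ M _ _ hG hsat P hP hnil hc
  have hsatG : Sat L G := hsat.of_surjective SD.projg (fun g => ⟨⟨0, g⟩, rfl⟩)
  have hnil' : Group.IsNilpotent P := (Subgroup.isNilpotent_iff_lowerCentralSeries P).2 hnil
  have hc' : CCov P ⊤ := ccov_of_lcs_le hG P hP hc
  obtain ⟨n, s, hn, H⟩ := stepC1.{u, v} L hA hU
  obtain ⟨B, hBn, hBP, hBs, hB⟩ := H G M hG hsat P hP hnil' hc'
  obtain ⟨K, -, hKf, c, hK⟩ := stepC2_aux hPB hsatG hP hnil' hc' hBn hBP n s hn hB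
    (hvn G P hP hc')
  exact ⟨B, hBn, hBP, hBs, K, hKf, c, hK⟩

/-- Step C. -/
theorem stepC (L : Set (FreeGroup ℕ)) (hA : PBa.{u} L) (hPB : PBb.{u} L)
    (hU : ∀ p q : ℕ, p.Prime → q.Prime → ¬ Sat L (UG p q)) : StepC.{u, v} L := by
  intro G _ M _ _ hG hsat P hP hnil hc
  have hsatG : Sat L G := hsat.of_surjective SD.projg (fun g => ⟨⟨0, g⟩, rfl⟩)
  have hnil' : Group.IsNilpotent P := (Subgroup.isNilpotent_iff_lowerCentralSeries P).2 hnil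
  have hc' : CCov P ⊤ := ccov_of_lcs_le hG P hP hc
  obtain ⟨n, s, hn, H⟩ := stepC1.{u, v} L hA hU
  obtain ⟨B, hBn, hBP, hBs, hB⟩ := H G M hG hsat P hP hnil' hc'
  obtain ⟨K, -, hKf, c, hK⟩ := stepC2 hPB hsatG hP hnil' hc' hBn hBP n s hn hB
  exact ⟨B, hBn, hBP, hBs, K, hKf, c, hK⟩

end Pool.Agent.FGRF
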