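import Mathlib
import Pool.Agent.Lib_helper46.FGRF.GroupS

/-!
# Laws of the groups `X p` and `S p q`
-/

set_option autoImplicit false

namespace Pool.Agent.FGRF

open scoped commutatorElement
open RegularWreathProduct

/-! ### the operators `shift k - 1` -/

section del

variable {p : ℕ}

/-- `shift k - 1` -/
noncomputable def del (k : ℤ) (a : ℤ →₀ ZMod p) : ℤ →₀ ZMod p := shift k a - a

theorem del_ne_zero {k : ℤ} (hk : k ≠ 0) {a : ℤ →₀ ZMod p} (ha : a ≠ 0) : del k a ≠ 0 := by
  intro h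
  have h1 : ∀ i, a (i - k) = a i := by
    intro i
    have h2 := congrArg (fun f : ℤ →₀ ZMod p => f i) (sub_eq_zero.1 h)
    simp only [shift_apply] at h2
    exact h2
  obtain ⟨i, hi⟩ := Finsupp.ne_iff.1 ha
  have h2 : ∀ m : ℕ, a (i - m * k) = a i := by
    intro m
    induction m with
    | zero => simp
    | succ m ih =>
      rw [← ih, ← h1 (i - m * k)]
      congr 1
      push_cast
      ring
  have h3 : (Set.range fun m : ℕ => i - m * k).Infinite := by
    refine Set.infinite_range_of_injective ?_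
    intro m m' hmm
    simp only [sub_right_inj] at hmm
    exact_mod_cast mul_right_cancel₀ hk hmm
  apply h3
  refine a.support.finite_toSet.subset ?_
  rintro _ ⟨m, rfl⟩
  rw [Finset.mem_coe, Finsupp.mem_support_iff]
  change a (i - m * k) ≠ 0
  rw [h2]
  exact hi

theorem del_iterate_ne_zero {k : ℤ} (hk : k ≠ 0) {a : ℤ →₀ ZMod p} (ha : a ≠ 0) (n : ℕ) :
    (del k)^[n] a ≠ 0 := by
  induction n with
  | zero => exact ha
  | succ n ih =>
    rw [Function.iterate_succ_apply']
    exact del_ne_zero hk ih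

theorem pair_del_left (b a : ℤ →₀ ZMod p) : pair (del 1 b) a = pair b (del (-1) a) := by
  have h1 : pair (shift 1 b) a = pair b (shift (-1) a) := by
    rw [← pair_shift (-1) (shift 1 b) a, shift_shift]
    simp
  rw [del, del, sub_eq_add_neg, sub_eq_add_neg, pair_add_left, pair_add_right, pair_neg_left,
    pair_neg_right, h1]

end del

/-! ### `X p` -/

namespace X

variable {p : ℕ}

theorem comm_t_inD (n : ℤ) (a : ℤ →₀ ZMod p) : ⁅(t : X p) ^ n, inD a⁆ = inD (del n a) := by
  rw [commutatorElement_def, conj_inD]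
  refine X.ext ?_ ?_ ?_ ?_ <;> simp [inD, del, sub_eq_add_neg]

theorem comm_t_inB (n : ℤ) (b : ℤ →₀ ZMod p) : ⁅(t : X p) ^ n, inB b⁆ = inB (del n b) := by
  rw [commutatorElement_def, conj_inB]
  refine X.ext ?_ ?_ ?_ ?_ <;> simp [inB, del, sub_eq_add_neg]

theorem comm_inB_inD (b a : ℤ →₀ ZMod p) : ⁅(inB b : X p), inD a⁆ = inC (pair b a) := by
  rw [commutatorElement_def]
  refine X.ext ?_ ?_ ?_ ?_
  · simp [inB, inD, inC]
  · simp [inB, inD, inC]
  · simp [inB, inD, inC]
  · simp [inB, inD, inC, pair_neg_right]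

end X

/-- The second derived subgroup of `X p` is central. -/
theorem X_lawA (p : ℕ) (_hp : p.Prime) :
    ∀ a ∈ derivedSeries (X p) 2, ∀ g, a * g = g * a := by
  let K₁ : Subgroup (X p) :=
    { carrier := {x | x.k = 0}
      one_mem' := rfl
      mul_mem' := by
        intro x y hx hy
        have hx : x.k = 0 := hx
        have hy : y.k = 0 := hy
        change (x * y).k = 0
        simp [hx, hy]
      inv_mem' := by
        intro x hx
        have hx : x.k = 0 := hx
        change x⁻¹.k = 0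
        simp [hx] }
  let K₂ : Subgroup (X p) :=
    { carrier := {x | x.k = 0 ∧ x.a = 0 ∧ x.b = 0}
      one_mem' := ⟨rfl, rfl, rfl⟩
      mul_mem' := by
        rintro x y ⟨hx1, hx2, hx3⟩ ⟨hy1, hy2, hy3⟩
        change (x * y).k = 0 ∧ (x * y).a = 0 ∧ (x * y).b = 0
        simp [hx1, hx2, hx3, hy1, hy2, hy3]
      inv_mem' := by
        rintro x ⟨hx1, hx2, hx3⟩
        change x⁻¹.k = 0 ∧ x⁻¹.a = 0 ∧ x⁻¹.b = 0
        simp [hx1, hx2, hx3] }
  have h1 : derivedSeries (X p) 1 ≤ K₁ := by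
    rw [derivedSeries_succ, Subgroup.commutator_le]
    intro x _ y _
    change (x * y * x⁻¹ * y⁻¹).k = 0
    simp
  have h2 : derivedSeries (X p) 2 ≤ K₂ := by
    rw [derivedSeries_succ, Subgroup.commutator_le]
    intro x hx y hy
    have hx : x.k = 0 := h1 hx
    have hy : y.k = 0 := h1 hy
    change (x * y * x⁻¹ * y⁻¹).k = 0 ∧ (x * y * x⁻¹ * y⁻¹).a = 0 ∧ (x * y * x⁻¹ * y⁻¹).b = 0
    refine ⟨by simp, ?_, ?_⟩
    · simp only [X.mul_a, X.mul_k, X.inv_a, X.inv_k, hx, hy, neg_zero, add_zero, shift_zero]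
      abel
    · simp only [X.mul_b, X.mul_k, X.inv_b, X.inv_k, hx, hy, neg_zero, add_zero, shift_zero]
      abel
  intro x hx g
  obtain ⟨hx1, hx2, hx3⟩ := h2 hx
  refine X.ext ?_ ?_ ?_ ?_
  · simp [hx1]
  · simp [hx1, hx2]
  · simp [hx1, hx3]
  · simp [hx1, hx2, hx3, add_comm]

theorem X_not_lawA (p : ℕ) (hp : p.Prime) (n : ℕ) (hn : 1 ≤ n) :
    ∃ t : X p, ∃ x ∈ derivedSeries (X p) 1, ∃ y ∈ derivedSeries (X p) 1,
      ⁅x, (fun z => ⁅t ^ n, z⁆)^[n] y⁆ ≠ 1 := by
  have : Fact p.Prime := ⟨hp⟩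
  let a₀ : ℤ →₀ ZMod p := Finsupp.single 0 1
  have ha₀ : a₀ ≠ 0 := by simp [a₀]
  let a₁ : ℤ →₀ ZMod p := (del (n : ℤ))^[n] (del 1 a₀)
  have ha₁ : a₁ ≠ 0 := del_iterate_ne_zero (by omega) (del_ne_zero one_ne_zero ha₀) n
  obtain ⟨i, hi⟩ := Finsupp.ne_iff.1 (del_ne_zero (k := -1) (by omega) ha₁)
  refine ⟨X.t, X.inB (del 1 (Finsupp.single i 1)), ?_, X.inD (del 1 a₀), ?_, ?_⟩
  · rw [← X.comm_t_inB]
    exact Subgroup.commutator_mem_commutator (Subgroup.mem_top _) (Subgroup.mem_top _)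
  · rw [← X.comm_t_inD]
    exact Subgroup.commutator_mem_commutator (Subgroup.mem_top _) (Subgroup.mem_top _)
  · have h1 : ∀ m : ℕ, (fun z : X p => ⁅(X.t : X p) ^ n, z⁆)^[m] (X.inD (del 1 a₀)) =
        X.inD ((del (n : ℤ))^[m] (del 1 a₀)) := by
      intro m
      induction m with
      | zero => rfl
      | succ m ih =>
        rw [Function.iterate_succ_apply', Function.iterate_succ_apply', ih, ← zpow_natCast,
          X.comm_t_inD]
    rw [h1, X.comm_inB_inD, pair_del_left, pair_single_left, one_mul]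
    intro h
    exact hi (congrArg X.c h)

/-! ### `S p q` -/

section dd

variable {p q : ℕ}

/-- `σ_s - 1` on functions on `ℤ/p` -/
def dd (s : ZMod p) (v : ZMod p → ZMod q) : ZMod p → ZMod q := fun z => v (z - s) - v z

theorem dd_zero (s : ZMod p) : dd s (0 : ZMod p → ZMod q) = 0 := by
  funext z
  simp [dd]

theorem eq_zero_of_dd_dd (hp : p.Prime) (hq : q.Prime) (hpq : p ≠ q) (s : ZMod p)
    (w : ZMod p → ZMod q) (h : dd s (dd s w) = 0) : dd s w = 0 := by
  have : Fact q.Prime := ⟨hq⟩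
  set w' := dd s w with hw'
  have h1 : ∀ z, w' (z - s) = w' z := fun z => sub_eq_zero.1 (congrFun h z)
  have h2 : ∀ (k : ℕ) z, w' (z - k * s) = w' z := by
    intro k
    induction k with
    | zero => intro z; simp
    | succ k ih =>
      intro z
      rw [← ih z, ← h1 (z - k * s)]
      congr 1
      push_cast
      ring
  have h3 : ∀ (k : ℕ) z, w (z - k * s) = w z + k * w' z := by
    intro k
    induction k with
    | zero => intro z; simp
    | succ k ih =>
      intro z
      have e1 : w (z - k * s - s) - w (z - k * s) = w' (z - k * s) := rfl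
      rw [h2, ih] at e1
      have e2 : z - ((k + 1 : ℕ) : ZMod p) * s = z - k * s - s := by
        push_cast
        ring
      rw [e2]
      push_cast
      linear_combination e1
  funext z
  have h4 := h3 p z
  rw [ZMod.natCast_self, zero_mul, sub_zero] at h4
  have h5 : (p : ZMod q) * w' z = 0 := by linear_combination -h4
  rcases mul_eq_zero.1 h5 with h6 | h6
  · exfalso
    rw [ZMod.natCast_eq_zero_iff] at h6
    exact hpq ((Nat.prime_dvd_prime_iff_eq hq hp).1 h6).symm
  · exact h6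

theorem dd_eq_zero_of_iterate (hp : p.Prime) (hq : q.Prime) (hpq : p ≠ q) (s : ZMod p)
    (w : ZMod p → ZMod q) (n : ℕ) (h : (dd s)^[n] w = 0) : dd s w = 0 := by
  induction n with
  | zero =>
    have h' : w = 0 := h
    rw [h', dd_zero]
  | succ n ih =>
    cases n with
    | zero => exact h
    | succ n =>
      apply ih
      rw [Function.iterate_succ_apply'] at h ⊢
      apply eq_zero_of_dd_dd hp hq hpq
      rwa [Function.iterate_succ_apply'] at h

theorem dd_one_eq_zero (hp : p.Prime) {s : ZMod p} (hs : s ≠ 0) (w : ZMod p → ZMod q)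
    (h : dd s w = 0) : dd 1 w = 0 := by
  have : Fact p.Prime := ⟨hp⟩
  have h1 : ∀ z, w (z - s) = w z := fun z => sub_eq_zero.1 (congrFun h z)
  have h2 : ∀ (k : ℕ) z, w (z - k * s) = w z := by
    intro k
    induction k with
    | zero => intro z; simp
    | succ k ih =>
      intro z
      rw [← ih z, ← h1 (z - k * s)]
      congr 1
      push_cast
      ring
  funext z
  have h3 := h2 (s⁻¹).val z
  rw [ZMod.natCast_zmod_val, inv_mul_cancel₀ hs] at h3
  exact sub_eq_zero.2 h3

theorem dd_iterate_ne_zero (hp : p.Prime) (hq : q.Prime) (hpq : p ≠ q) {s : ZMod p} (hs : s ≠ 0)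
    (n : ℕ) : (dd s)^[n] (dd 1 (dd 1 (Pi.single 0 1 : ZMod p → ZMod q))) ≠ 0 := by
  have : Fact p.Prime := ⟨hp⟩
  have : Fact q.Prime := ⟨hq⟩
  intro h
  have h1 := dd_one_eq_zero hp hs _ (dd_eq_zero_of_iterate hp hq hpq s _ n h)
  have h2 : dd 1 (Pi.single 0 1 : ZMod p → ZMod q) = 0 :=
    dd_eq_zero_of_iterate hp hq hpq 1 _ 3 h1
  have h3 := congrFun h2 0
  simp only [dd, zero_sub, Pi.single_eq_same, Pi.zero_apply] at h3
  rw [Pi.single_eq_of_ne (neg_ne_zero.2 one_ne_zero), zero_sub, neg_eq_zero] at h3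
  exact one_ne_zero h3

end dd

namespace S

variable {p q : ℕ}

/-- top elements of `C_q ≀ C_p` -/
def tp (q : ℕ) (s : ZMod p) : (Multiplicative (ZMod q)) ≀ᵣ (Multiplicative (ZMod p)) :=
  ⟨1, Multiplicative.ofAdd s⟩

/-- bottom elements of `C_q ≀ C_p` -/
def bt (v : ZMod p → ZMod q) : (Multiplicative (ZMod q)) ≀ᵣ (Multiplicative (ZMod p)) :=
  ⟨fun z => Multiplicative.ofAdd (v z.toAdd), 1⟩

theorem tp_add (s s' : ZMod p) : tp q (s + s') = tp q s * tp q s' := by
  refine RegularWreathProduct.ext ?_ ?_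
  · funext z
    simp [tp]
  · simp [tp]

theorem tp_zero : tp q (0 : ZMod p) = 1 := rfl

theorem bt_injective {v w : ZMod p → ZMod q} (h : bt v = bt w) : v = w := by
  funext z
  have h1 := congrArg (fun x => (x.left (Multiplicative.ofAdd z)).toAdd) h
  exact h1

theorem comm_tp_bt (s : ZMod p) (v : ZMod p → ZMod q) : ⁅tp q s, bt v⁆ = bt (dd s v) := by
  rw [commutatorElement_def]
  refine RegularWreathProduct.ext ?_ ?_
  · funext z
    simp only [tp, bt, dd, mul_left, inv_left, Pi.mul_apply, Pi.one_apply, Pi.inv_apply, one_mul,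
      mul_right, inv_right, inv_one, mul_one, mul_inv_cancel]
    rw [sub_eq_add_neg, ofAdd_add, ofAdd_neg]
    congr 3
    rw [toAdd_mul, toAdd_inv, toAdd_ofAdd]
    ring
  · simp [tp, bt]

/-- top elements of `S p q` -/
noncomputable def topS (q : ℕ) (h : ℤ →₀ ZMod p) : S p q :=
  ⟨⟨fun z => tp q (h z.toAdd), 1⟩, by
    refine (h.support.finite_toSet.preimage
      (f := (Multiplicative.toAdd : Multiplicative ℤ → ℤ)) Multiplicative.toAdd.injective.injOn).subset ?_
    intro z hz
    rw [Set.mem_preimage, Finset.mem_coe, Finsupp.mem_support_iff]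
    intro h0
    apply hz
    change tp q (h z.toAdd) = 1
    rw [h0, tp_zero]⟩

/-- bottom elements of `S p q` -/
def botS (i : ℤ) (v : ZMod p → ZMod q) : S p q := RWr.base (Multiplicative.ofAdd i) (bt v)

theorem topS_add (h h' : ℤ →₀ ZMod p) : topS q (h + h') = topS q h * topS q h' := by
  apply Subtype.ext
  rw [Subgroup.coe_mul]
  refine RegularWreathProduct.ext ?_ ?_
  · funext z
    simp [topS, tp_add]
  · simp [topS]

theorem topS_zero : topS q (0 : ℤ →₀ ZMod p) = 1 := by
  apply Subtype.ext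
  refine RegularWreathProduct.ext ?_ ?_
  · funext z
    simp [topS, tp_zero]
  · rfl

theorem topS_neg (h : ℤ →₀ ZMod p) : topS q (-h) = (topS q h)⁻¹ := by
  rw [eq_inv_iff_mul_eq_one, ← topS_add, neg_add_cancel, topS_zero]

theorem conj_topS (n : ℤ) (h : ℤ →₀ ZMod p) :
    (RWr.tt : S p q) ^ n * topS q h * ((RWr.tt : S p q) ^ n)⁻¹ = topS q (shift n h) := by
  apply Subtype.ext
  rw [Subgroup.coe_mul, Subgroup.coe_mul, Subgroup.coe_inv, RWr.tt_zpow]
  refine RegularWreathProduct.ext ?_ ?_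
  · funext z
    simp only [topS, mul_left, inv_left, Pi.mul_apply, Pi.one_apply, Pi.inv_apply, one_mul,
      mul_one, inv_one]
    rw [shift_apply]
    congr 2
    rw [toAdd_mul, toAdd_inv, toAdd_ofAdd]
    ring
  · simp [topS]

theorem comm_tt_topS (n : ℤ) (h : ℤ →₀ ZMod p) :
    ⁅(RWr.tt : S p q) ^ n, topS q h⁆ = topS q (del n h) := by
  rw [commutatorElement_def, conj_topS, del, sub_eq_add_neg, topS_add, topS_neg]

theorem comm_topS_botS (h : ℤ →₀ ZMod p) (i : ℤ) (v : ZMod p → ZMod q) :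
    ⁅topS q h, botS i v⁆ = botS i (dd (h i) v) := by
  rw [commutatorElement_def]
  apply Subtype.ext
  rw [Subgroup.coe_mul, Subgroup.coe_mul, Subgroup.coe_mul, Subgroup.coe_inv, Subgroup.coe_inv]
  refine RegularWreathProduct.ext ?_ ?_
  · funext z
    simp only [topS, botS, RWr.base, mul_left, inv_left, Pi.mul_apply, Pi.inv_apply, one_mul,
      mul_one, inv_one, mul_right, inv_right]
    by_cases hz : z = Multiplicative.ofAdd i
    · rw [if_pos hz, if_pos hz, ← comm_tp_bt, commutatorElement_def, hz]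
      rfl
    · rw [if_neg hz, if_neg hz, mul_one, inv_one, mul_one, mul_inv_cancel]
  · simp [topS, botS, RWr.base]

theorem botS_injective {i : ℤ} {v w : ZMod p → ZMod q} (h : botS i v = botS i w) : v = w := by
  have h1 := congrArg (fun x : S p q => x.1.left (Multiplicative.ofAdd i)) h
  simp only [botS, RWr.base, if_true] at h1
  exact bt_injective h1

theorem botS_zero (i : ℤ) : botS i (0 : ZMod p → ZMod q) = 1 := by
  apply Subtype.ext
  refine RegularWreathProduct.ext ?_ ?_
  · funext z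
    simp only [botS, RWr.base]
    split_ifs
    · rfl
    · rfl
  · rfl

end S

/-- The third derived subgroup of `S p q` is trivial. -/
theorem S_lawB (p q : ℕ) (_hp : p.Prime) (_hq : q.Prime) : derivedSeries (S p q) 3 = ⊥ := by
  let K₁ : Subgroup (S p q) :=
    { carrier := {x | x.1.right = 1}
      one_mem' := rfl
      mul_mem' := by
        intro x y hx hy
        have hx : x.1.right = 1 := hx
        have hy : y.1.right = 1 := hy
        change (x.1 * y.1).right = 1
        simp [hx, hy]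
      inv_mem' := by
        intro x hx
        have hx : x.1.right = 1 := hx
        change (x.1)⁻¹.right = 1
        simp [hx] }
  let K₂ : Subgroup (S p q) :=
    { carrier := {x | x.1.right = 1 ∧ ∀ z, (x.1.left z).right = 1}
      one_mem' := ⟨rfl, fun _ => rfl⟩
      mul_mem' := by
        rintro x y ⟨hx1, hx2⟩ ⟨hy1, hy2⟩
        change (x.1 * y.1).right = 1 ∧ ∀ z, ((x.1 * y.1).left z).right = 1
        simp [hx1, hx2, hy1, hy2]
      inv_mem' := by
        rintro x ⟨hx1, hx2⟩
        change (x.1)⁻¹.right = 1 ∧ ∀ z, ((x.1)⁻¹.left z).right = 1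
        simp [hx1, hx2] }
  have h1 : derivedSeries (S p q) 1 ≤ K₁ := by
    rw [derivedSeries_succ, Subgroup.commutator_le]
    intro x _ y _
    change (x.1 * y.1 * (x.1)⁻¹ * (y.1)⁻¹).right = 1
    simp
  have h2 : derivedSeries (S p q) 2 ≤ K₂ := by
    rw [derivedSeries_succ, Subgroup.commutator_le]
    intro x hx y hy
    have hx : x.1.right = 1 := h1 hx
    have hy : y.1.right = 1 := h1 hy
    change (x.1 * y.1 * (x.1)⁻¹ * (y.1)⁻¹).right = 1 ∧
      ∀ z, ((x.1 * y.1 * (x.1)⁻¹ * (y.1)⁻¹).left z).right = 1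
    refine ⟨by simp, fun z => ?_⟩
    simp [hx, hy]
  rw [eq_bot_iff, derivedSeries_succ, Subgroup.commutator_le]
  intro x hx y hy
  obtain ⟨hx1, hx2⟩ := h2 hx
  obtain ⟨hy1, hy2⟩ := h2 hy
  rw [Subgroup.mem_bot]
  apply Subtype.ext
  change x.1 * y.1 * (x.1)⁻¹ * (y.1)⁻¹ = 1
  refine RegularWreathProduct.ext ?_ ?_
  · funext z
    refine RegularWreathProduct.ext ?_ ?_
    · funext w
      simp [hx1, hy1, hx2, hy2]
    · simp [hx1, hy1]
  · simp

theorem S_not_lawB (p q : ℕ) (hp : p.Prime) (hq : q.Prime) (hpq : p ≠ q) (n : ℕ) (hn : 1 ≤ n) :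
    ∃ t : S p q, ∃ u ∈ derivedSeries (S p q) 2, ∃ y ∈ derivedSeries (S p q) 1,
      (List.replicate n y).foldr (fun y u => ⁅(fun z => ⁅t ^ n, z⁆)^[n] y, u⁆) u ≠ 1 := by
  have : Fact p.Prime := ⟨hp⟩
  let a₀ : ℤ →₀ ZMod p := Finsupp.single 0 1
  have ha₀ : a₀ ≠ 0 := by simp [a₀]
  let a₁ : ℤ →₀ ZMod p := (del (n : ℤ))^[n] (del 1 a₀)
  have ha₁ : a₁ ≠ 0 := del_iterate_ne_zero (by omega) (del_ne_zero one_ne_zero ha₀) n
  obtain ⟨i, hi⟩ := Finsupp.ne_iff.1 ha₁
  let v : ZMod p → ZMod q := Pi.single 0 1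
  have hD1 : ∀ h : ℤ →₀ ZMod p, S.topS q (del 1 h) ∈ derivedSeries (S p q) 1 := by
    intro h
    rw [← S.comm_tt_topS]
    exact Subgroup.commutator_mem_commutator (Subgroup.mem_top _) (Subgroup.mem_top _)
  refine ⟨RWr.tt, S.botS i (dd 1 (dd 1 v)), ?_, S.topS q (del 1 a₀), hD1 a₀, ?_⟩
  · have h1 : S.botS i (dd 1 v) ∈ derivedSeries (S p q) 1 := by
      have h2 := S.comm_topS_botS (q := q) (Finsupp.single i (1 : ZMod p)) i v
      rw [Finsupp.single_eq_same] at h2
      rw [← h2]
      exact Subgroup.commutator_mem_commutator (Subgroup.mem_top _) (Subgroup.mem_top _)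
    have h2 := S.comm_topS_botS (q := q) (del 1 (Finsupp.single (i - 1) (1 : ZMod p))) i (dd 1 v)
    have h3 : del 1 (Finsupp.single (i - 1) (1 : ZMod p)) i = 1 := by
      rw [del, Finsupp.sub_apply, shift_single, sub_add_cancel, Finsupp.single_eq_same,
        Finsupp.single_apply, if_neg (by omega), sub_zero]
    rw [h3] at h2
    rw [← h2]
    exact Subgroup.commutator_mem_commutator (hD1 _) h1
  · have h1 : ∀ m : ℕ, (fun z : S p q => ⁅(RWr.tt : S p q) ^ n, z⁆)^[m] (S.topS q (del 1 a₀)) =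
        S.topS q ((del (n : ℤ))^[m] (del 1 a₀)) := by
      intro m
      induction m with
      | zero => rfl
      | succ m ih =>
        rw [Function.iterate_succ_apply', Function.iterate_succ_apply', ih, ← zpow_natCast,
          S.comm_tt_topS]
    have h2 : ∀ m : ℕ, (List.replicate m (S.topS q (del 1 a₀))).foldr
        (fun y u => ⁅(fun z => ⁅(RWr.tt : S p q) ^ n, z⁆)^[n] y, u⁆) (S.botS i (dd 1 (dd 1 v))) =
        S.botS i ((dd (a₁ i))^[m] (dd 1 (dd 1 v))) := by
      intro m
      induction m with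
      | zero => rfl
      | succ m ih =>
        rw [List.replicate_succ, List.foldr_cons, ih, h1, S.comm_topS_botS,
          Function.iterate_succ_apply']
    rw [h2, ← S.botS_zero i]
    intro h
    exact dd_iterate_ne_zero hp hq hpq hi n (S.botS_injective h)

end Pool.Agent.FGRF
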