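import Mathlib
import Pool.Agent.Lib_helper46.FGRF.LawGroups
import Pool.Agent.Lib_helper35.FGRF.Laws

/-!
# The laws (A) and (B) fail in the groups `X p` and `S p q`
-/

set_option autoImplicit false

namespace Pool.Agent.FGRF

open scoped commutatorElement

theorem X_not_LawA (p : ℕ) (hp : p.Prime) (n : ℕ) (hn : 1 ≤ n) : ¬ LawA n (X p) := by
  intro h
  obtain ⟨t, x, hx, y, hy, hne⟩ := X_not_lawA p hp n hn
  exact hne (h t x hx y hy)

/-- a criterion for the failure of law (B) -/
theorem not_LawB_of {G V W : Type*} [Group G] (f : W → G) (dW : W → W) (g : V → G) (dV : V → V)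
    (n : ℕ) (t : G) (w : W) (v : V) (h1 : ∀ w, t ^ n * f w * (t ^ n)⁻¹ * (f w)⁻¹ = f (dW w))
    (h2 : ∀ v, f (dW^[n] w) * g v * (f (dW^[n] w))⁻¹ * (g v)⁻¹ = g (dV v))
    (hw : f w ∈ derivedSeries G 1) (hv : g v ∈ derivedSeries G 2) (hne : g (dV^[n] v) ≠ 1) :
    ¬ LawB n G := by
  intro h
  have h3 : ∀ m : ℕ, (fun z : G => ⁅t ^ n, z⁆)^[m] (f w) = f (dW^[m] w) := by
    intro m
    induction m with
    | zero => rfl
    | succ m ih =>
      rw [Function.iterate_succ_apply', Function.iterate_succ_apply', ih, commutatorElement_def, h1]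
  have h4 : ∀ m : ℕ, (List.replicate m (f w)).foldr (fun y u => ⁅eng n t y, u⁆) (g v) =
      g (dV^[m] v) := by
    intro m
    induction m with
    | zero => rfl
    | succ m ih =>
      rw [List.replicate_succ, List.foldr_cons, ih, eng, h3, commutatorElement_def, h2,
        Function.iterate_succ_apply']
  apply hne
  rw [← h4]
  exact h t (g v) hv (List.replicate n (f w))
    (fun z hz => (List.eq_of_mem_replicate hz) ▸ hw) List.length_replicate

theorem mem_derived_one_of {G : Type*} [Group G] (a b e : G) (h : ⁅a, b⁆ = e) :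
    e ∈ derivedSeries G 1 := by
  rw [← h, derivedSeries_succ]
  exact Subgroup.commutator_mem_commutator (Subgroup.mem_top _) (Subgroup.mem_top _)

theorem mem_derived_two_of {G : Type*} [Group G] (a b e : G) (h : ⁅a, b⁆ = e)
    (ha : a ∈ derivedSeries G 1) (hb : b ∈ derivedSeries G 1) : e ∈ derivedSeries G 2 := by
  rw [← h, derivedSeries_succ]
  exact Subgroup.commutator_mem_commutator ha hb

theorem exists_place {p : ℕ} (hp : p.Prime) (n : ℕ) (hn : 1 ≤ n) :
    ∃ i, ((del (n : ℤ))^[n] (del 1 (Finsupp.single 0 (1 : ZMod p)))) i ≠ 0 := by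
  have : Fact p.Prime := ⟨hp⟩
  have ha₀ : Finsupp.single (0 : ℤ) (1 : ZMod p) ≠ 0 := by simp
  exact Finsupp.ne_iff.1 (del_iterate_ne_zero (k := (n : ℤ)) (by omega)
    (del_ne_zero one_ne_zero ha₀) n)

theorem S_not_LawB (p q : ℕ) (hp : p.Prime) (hq : q.Prime) (hpq : p ≠ q) (n : ℕ) (hn : 1 ≤ n) :
    ¬ LawB n (S p q) := by
  obtain ⟨i, hi⟩ := exists_place hp n hn
  let v : ZMod p → ZMod q := Pi.single 0 1
  refine not_LawB_of (G := S p q) (S.topS q) (del (n : ℤ)) (S.botS i)
    (dd (((del (n : ℤ))^[n] (del 1 (Finsupp.single 0 (1 : ZMod p)))) i)) n RWr.tt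
    (del 1 (Finsupp.single 0 (1 : ZMod p))) (dd 1 (dd 1 v)) ?_ ?_ ?_ ?_ ?_
  · intro w
    have h1 := S.comm_tt_topS (q := q) (n : ℤ) w
    rw [commutatorElement_def, zpow_natCast] at h1
    exact h1
  · intro v
    have h1 := S.comm_topS_botS (q := q)
      ((del (n : ℤ))^[n] (del 1 (Finsupp.single 0 (1 : ZMod p)))) i v
    rw [commutatorElement_def] at h1
    exact h1
  · exact mem_derived_one_of (G := S p q) _ _ _ (S.comm_tt_topS 1 _)
  · have h2 := S.comm_topS_botS (q := q) (del 1 (Finsupp.single (i - 1) (1 : ZMod p))) i (dd 1 v)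
    have h3 : del 1 (Finsupp.single (i - 1) (1 : ZMod p)) i = 1 := by
      rw [del, Finsupp.sub_apply, shift_single, sub_add_cancel, Finsupp.single_eq_same,
        Finsupp.single_apply, if_neg (by omega), sub_zero]
    have h4 := S.comm_topS_botS (q := q) (Finsupp.single i (1 : ZMod p)) i v
    rw [Finsupp.single_eq_same] at h4
    rw [h3] at h2
    exact mem_derived_two_of (G := S p q) _ _ _ h2
      (mem_derived_one_of (G := S p q) _ _ _ (S.comm_tt_topS 1 _))
      (mem_derived_one_of (G := S p q) _ _ _ h4)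
  · rw [← S.botS_zero i]
    intro h
    exact dd_iterate_ne_zero hp hq hpq hi n (S.botS_injective h)

end Pool.Agent.FGRF
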